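import Pool.Agent.L0h65.CW.Theta

set_option autoImplicit false

/-!
# Vertices and paths attached to a hole
-/

namespace Pool.Agent.L0h65.CW

open Pool.Agent.H175R2 SimpleGraph

variable {V : Type} {G : SimpleGraph V}

theorem IndCycle.adj' {c : ℕ → V} {n : ℕ} (h : IndCycle G c n) {i j : ℕ} (hi : i < n) (hj : j < n) :
    G.Adj (c i) (c j) ↔ i + 1 = j ∨ j + 1 = i ∨ (i = 0 ∧ j + 1 = n) ∨ (j = 0 ∧ i + 1 = n) := by
  have h3 := h.h3
  rcases lt_trichotomy i j with hij | hij | hij
  · rw [h.adj i hi j hj hij]; omega
  · subst hij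
    exact ⟨fun h => absurd rfl h.ne, fun h => by omega⟩
  · rw [G.adj_comm, h.adj j hj i hi hij]; omega

/-- An induced path outside an induced cycle with exactly two attachments. -/
theorem diamond_of_attach {c : ℕ → V} {n : ℕ} (h : IndCycle G c n) {k : ℕ} (hk0 : 0 < k) (hk : k < n)
    {q : ℕ → V} {m : ℕ} (hq : IndPath G q m) (hqc : ∀ i ≤ m, ∀ j < n, q i ≠ c j)
    (hadj : ∀ i ≤ m, ∀ j < n, (G.Adj (q i) (c j) ↔ (j = 0 ∧ i = 0) ∨ (j = k ∧ i = m))) :
    ITM diamond G := by
  have h3 := h.h3
  have ne : ∀ i < n, ∀ j < n, i ≠ j → c i ≠ c j := fun i hi j hj hij e => hij (h.inj i hi j hj e)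
  let F : ℕ → V := fun i => c i
  let B : ℕ → V := fun i => if i = 0 then c 0 else c (n - i)
  let R : ℕ → V := fun i => if i = 0 then c 0 else if i ≤ m + 1 then q (i - 1) else c k
  have R1 : ∀ i ≤ m + 2, ∀ j ≤ m + 2, R i = R j → i = j := by
    intro i hi j hj hij
    simp only [R] at hij
    split_ifs at hij with h1 h2 h3 h4 h5 h6 h7 h8
    all_goals first
      | omega
      | (exact absurd hij.symm (hqc _ (by omega) _ (by omega)))
      | (exact absurd hij (hqc _ (by omega) _ (by omega)))
      | (exact absurd hij (ne _ (by omega) _ (by omega) (by omega)))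
      | (have := hq.1 _ (by omega) _ (by omega) hij; omega)
  have RR : ∀ i ≤ m + 2, ∀ j ≤ m + 2, i < j → ¬ (i = 0 ∧ j = m + 2) →
      (G.Adj (R i) (R j) ↔ i + 1 = j) := by
    intro i hi j hj hij hne
    simp only [R]
    split_ifs with h1 h2 h3 h4 h5 h6 h7 h8
    · omega
    · rw [G.adj_comm, hadj (j - 1) (by omega) 0 (by omega)]; omega
    · omega
    · omega
    · rw [hq.2 (i - 1) (by omega) (j - 1) (by omega)]; omega
    · rw [hadj (i - 1) (by omega) k hk]; omega
    · omega
    · omega
    · omega
  have FR : ∀ i < k, 0 < i → ∀ j < m + 2, 0 < j → F i ≠ R j ∧ ¬ G.Adj (F i) (R j) := by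
    intro i hi hi0 j hj hj0
    have e1 : R j = q (j - 1) := by
      simp only [R]
      rw [if_neg (by omega), if_pos (by omega)]
    rw [e1]
    refine ⟨(hqc _ (by omega) _ (by omega)).symm, ?_⟩
    rw [G.adj_comm, hadj (j - 1) (by omega) i (by omega)]; omega
  have BR : ∀ i < n - k, 0 < i → ∀ j < m + 2, 0 < j → B i ≠ R j ∧ ¬ G.Adj (B i) (R j) := by
    intro i hi hi0 j hj hj0
    have e1 : R j = q (j - 1) := by
      simp only [R]
      rw [if_neg (by omega), if_pos (by omega)]
    have e2 : B i = c (n - i) := by
      simp only [B]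
      rw [if_neg (by omega)]
    rw [e1, e2]
    refine ⟨(hqc _ (by omega) _ (by omega)).symm, ?_⟩
    rw [G.adj_comm, hadj (j - 1) (by omega) (n - i) (by omega)]; omega
  have B1 : ∀ i ≤ n - k, ∀ j ≤ n - k, B i = B j → i = j := by
    intro i hi j hj hij
    simp only [B] at hij
    split_ifs at hij with h1 h2 h3
    · omega
    · have := h.inj _ (by omega) _ (by omega) hij; omega
    · have := h.inj _ (by omega) _ (by omega) hij; omega
    · have := h.inj _ (by omega) _ (by omega) hij; omega
  have BB : ∀ i ≤ n - k, ∀ j ≤ n - k, i < j → ¬ (i = 0 ∧ j = n - k ∧ k = 1) →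
      (G.Adj (B i) (B j) ↔ i + 1 = j) := by
    intro i hi j hj hij hne
    simp only [B]
    split_ifs with h1 h2 h3
    · omega
    · rw [h.adj 0 (by omega) (n - j) (by omega) (by omega)]; omega
    · omega
    · rw [h.adj' (by omega) (by omega)]; omega
  have F1 : ∀ i ≤ k, ∀ j ≤ k, F i = F j → i = j := fun i hi j hj hij =>
    h.inj i (by omega) j (by omega) hij
  have FF : ∀ i ≤ k, ∀ j ≤ k, i < j → ¬ (i = 0 ∧ j = k ∧ k + 1 = n) →
      (G.Adj (F i) (F j) ↔ i + 1 = j) := by
    intro i hi j hj hij hne
    show G.Adj (c i) (c j) ↔ _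
    rw [h.adj i (by omega) j (by omega) hij]; omega
  have FB : ∀ i < k, 0 < i → ∀ j < n - k, 0 < j → F i ≠ B j ∧ ¬ G.Adj (F i) (B j) := by
    intro i hi hi0 j hj hj0
    have e2 : B j = c (n - j) := by
      simp only [B]
      rw [if_neg (by omega)]
    rw [e2]
    refine ⟨ne _ (by omega) _ (by omega) (by omega), ?_⟩
    show ¬ G.Adj (c i) (c (n - j))
    rw [h.adj i (by omega) (n - j) (by omega) (by omega)]; omega
  have Rend : R (m + 2) = c k := by
    simp only [R]
    rw [if_neg (by omega), if_neg (by omega)]
  have Bend : B (n - k) = c k := by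
    simp only [B]
    rw [if_neg (by omega)]
    congr 1; omega
  by_cases hkn : k + 1 = n
  · -- the backward arc is an edge
    refine Theta.itm (s := c 0) (t := c k) (P := B) (Q := F) (R := R) (a := n - k) (b := k)
      (c := m + 2) ⟨by omega, by omega, by omega, rfl, rfl, rfl, Bend, rfl, Rend, B1, F1, R1, ?_, ?_,
      RR, ?_, BR, FR⟩
    · exact fun i hi j hj hij => BB i hi j hj hij (by omega)
    · exact fun i hi j hj hij h' => FF i hi j hj hij (by tauto)
    · intro i hi hi0 j hj hj0
      obtain ⟨h1, h2⟩ := FB j hj hj0 i hi hi0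
      exact ⟨h1.symm, fun h => h2 h.symm⟩
  · refine Theta.itm (s := c 0) (t := c k) (P := F) (Q := B) (R := R) (a := k) (b := n - k)
      (c := m + 2) ⟨by omega, by omega, by omega, rfl, rfl, rfl, rfl, Bend, Rend, F1, B1, R1, ?_, ?_,
      RR, FB, FR, BR⟩
    · exact fun i hi j hj hij => FF i hi j hj hij (by tauto)
    · exact fun i hi j hj hij h' => BB i hi j hj hij (by tauto)

/-- A vertex outside an induced cycle with at least three neighbours. -/
theorem diamond_of_three {c : ℕ → V} {n : ℕ} (h : IndCycle G c n) {v : V}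
    (hv : ∀ i < n, v ≠ c i) {i1 i2 : ℕ} (h1 : 0 < i1) (h2 : i1 + 2 ≤ i2) (h2n : i2 < n)
    (a0 : G.Adj v (c 0)) (a1 : G.Adj v (c i1)) (a2 : G.Adj v (c i2))
    (n1 : ∀ i, 0 < i → i < i1 → ¬ G.Adj v (c i)) (n2 : ∀ i, i2 < i → i < n → ¬ G.Adj v (c i)) :
    ITM diamond G := by
  have ne : ∀ i < n, ∀ j < n, i ≠ j → c i ≠ c j := fun i hi j hj hij e => hij (h.inj i hi j hj e)
  let P : ℕ → V := fun i => if i = 0 then c 0 else v
  let Q : ℕ → V := fun i => if i ≤ i1 then c i else v
  let R : ℕ → V := fun i => if i = 0 then c 0 else if i ≤ n - i2 then c (n - i) else v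
  refine Theta.itm (s := c 0) (t := v) (P := P) (Q := Q) (R := R) (a := 1) (b := i1 + 1)
    (c := n - i2 + 1) ⟨le_refl _, by omega, by omega, rfl, ?_, rfl, rfl, ?_, ?_, ?_, ?_, ?_, ?_, ?_,
      ?_, ?_, ?_, ?_⟩
  · simp only [Q]; rw [if_pos (by omega)]
  · simp only [Q]; rw [if_neg (by omega)]
  · simp only [R]; rw [if_neg (by omega), if_neg (by omega)]
  · intro i hi j hj hij
    simp only [P] at hij
    split_ifs at hij with e1 e2 e2
    · omega
    · exact absurd hij.symm (hv _ (by omega))
    · exact absurd hij (hv _ (by omega))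
    · omega
  · intro i hi j hj hij
    simp only [Q] at hij
    split_ifs at hij with e1 e2 e2
    · exact h.inj _ (by omega) _ (by omega) hij
    · exact absurd hij.symm (hv _ (by omega))
    · exact absurd hij (hv _ (by omega))
    · omega
  · intro i hi j hj hij
    simp only [R] at hij
    split_ifs at hij
    all_goals first
      | omega
      | (exact absurd hij.symm (hv _ (by omega)))
      | (exact absurd hij (hv _ (by omega)))
      | (have := h.inj _ (by omega) _ (by omega) hij; omega)
  · intro i hi j hj hij
    have e1 : i = 0 := by omega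
    have e2 : j = 1 := by omega
    subst e1; subst e2
    simpa [P] using a0.symm
  · intro i hi j hj hij hne
    simp only [Q]
    split_ifs with e1 e2 e2
    · rw [h.adj i (by omega) j (by omega) hij]; omega
    · rw [G.adj_comm]
      constructor
      · intro ha
        by_contra hc
        exact n1 i (by omega) (by omega) ha
      · intro hc
        have : i = i1 := by omega
        subst this; exact a1
    · omega
    · omega
  · intro i hi j hj hij hne
    simp only [R]
    split_ifs with e1 e2 e3 e4 e5 e6 e7 e8
    · omega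
    · rw [h.adj 0 (by omega) (n - j) (by omega) (by omega)]; omega
    · omega
    · omega
    · rw [h.adj' (by omega) (by omega)]; omega
    · rw [G.adj_comm]
      constructor
      · intro ha
        by_contra hc
        exact n2 (n - i) (by omega) (by omega) ha
      · intro hc
        have : n - i = i2 := by omega
        rw [this]; exact a2
    · omega
    · omega
    · omega
  · intro i hi hi0; omega
  · intro i hi hi0; omega
  · intro i hi hi0 j hj hj0
    have e1 : Q i = c i := by
      simp only [Q]; rw [if_pos (by omega)]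
    have e2 : R j = c (n - j) := by
      simp only [R]; rw [if_neg (by omega), if_pos (by omega)]
    rw [e1, e2]
    refine ⟨ne _ (by omega) _ (by omega) (by omega), ?_⟩
    rw [h.adj i (by omega) (n - j) (by omega) (by omega)]; omega

theorem rot_zero {c : ℕ → V} {n k : ℕ} (hk : k < n) : rot c n k 0 = c k := by
  unfold rot
  rw [if_pos (by omega), zero_add]

/-- rotated indices -/
theorem rot_of {c : ℕ → V} {n k j : ℕ} (hk : k < n) (hj : j < n) (hkj : k ≠ j) :
    ∃ x, 0 < x ∧ x < n ∧ rot c n k x = c j := by
  by_cases h : k < j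
  · refine ⟨j - k, by omega, by omega, ?_⟩
    unfold rot
    rw [if_pos (by omega)]
    congr 1; omega
  · refine ⟨j + n - k, by omega, by omega, ?_⟩
    unfold rot
    rw [if_neg (by omega)]
    congr 1; omega

/-- A vertex outside a hole has at most one neighbour on it, if there is no subdivision of the
diamond. -/
theorem vertex_attach (hG : ¬ ITM diamond G) {c : ℕ → V} {n : ℕ} (h : IndCycle G c n) (h4 : 4 ≤ n)
    {v : V} (hv : ∀ i < n, v ≠ c i) (h0 : G.Adj v (c 0)) {k : ℕ} (hk0 : 0 < k) (hk : k < n)
    (hvk : G.Adj v (c k)) : False := by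
  classical
  -- least neighbour
  have hex : ∃ i, 0 < i ∧ i < n ∧ G.Adj v (c i) := ⟨k, hk0, hk, hvk⟩
  obtain ⟨hi0, hi1n, hi1⟩ := Nat.find_spec hex
  have hmin := fun m => Nat.find_min hex (m := m)
  set i1 := Nat.find hex with hi1def
  -- greatest neighbour
  have hex2 : ∃ j, j < n ∧ G.Adj v (c (n - 1 - j)) ∧ 0 < n - 1 - j :=
    ⟨n - 1 - k, by omega, by rwa [show n - 1 - (n - 1 - k) = k by omega], by omega⟩
  obtain ⟨hj0, hj1, hj2⟩ := Nat.find_spec hex2
  have hmin2 := fun m => Nat.find_min hex2 (m := m)
  set j1 := Nat.find hex2 with hj1def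
  obtain ⟨i2, hi2⟩ : ∃ i2, i2 = n - 1 - j1 := ⟨_, rfl⟩
  rw [← hi2] at hj1 hj2
  have nlow : ∀ i, 0 < i → i < i1 → ¬ G.Adj v (c i) := by
    intro i h1 h2 h3
    exact hmin i h2 ⟨h1, by omega, h3⟩
  have nhigh : ∀ i, i2 < i → i < n → ¬ G.Adj v (c i) := by
    intro i h1 h2 h3
    exact hmin2 (n - 1 - i) (by omega) ⟨by omega, by
      rwa [show n - 1 - (n - 1 - i) = i by omega], by omega⟩
  have hle : i1 ≤ i2 := by
    by_contra hc
    exact nlow i2 hj2 (by omega) hj1
  by_cases he : i1 = i2
  · -- exactly two neighbours
    apply hG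
    refine diamond_of_attach h hi0 hi1n (q := fun _ => v) (m := 0) ⟨?_, ?_⟩ ?_ ?_
    · intro i hi j hj _; omega
    · intro i hi j hj
      exact ⟨fun h => absurd rfl h.ne, fun h => by omega⟩
    · intro i _ j hj; exact hv j hj
    · intro i hi j hj
      constructor
      · intro ha
        by_contra hc
        have hj0 : 0 < j := by
          rcases Nat.eq_zero_or_pos j with h | h
          · exact absurd (Or.inl ⟨h, by omega⟩) hc
          · exact h
        rcases lt_trichotomy j i1 with h | h | h
        · exact nlow j hj0 h ha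
        · exact hc (Or.inr ⟨h, by omega⟩)
        · exact nhigh j (by omega) hj ha
      · rintro (⟨rfl, _⟩ | ⟨rfl, _⟩)
        · exact h0
        · exact hi1
  · by_cases h2 : i1 + 2 ≤ i2
    · exact hG (diamond_of_three h hv hi0 h2 (by omega) h0 hi1 hj1 nlow nhigh)
    · have hi2' : i2 = i1 + 1 := by omega
      have hall : ∀ x < n, G.Adj v (c x) → x = 0 ∨ x = i1 ∨ x = i1 + 1 := by
        intro x hx ha
        by_contra hc
        push Not at hc
        rcases lt_trichotomy x i1 with h | h | h
        · exact nlow x (by omega) h ha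
        · exact hc.2.1 h
        · exact nhigh x (by omega) hx ha
      by_cases h5 : i1 + 2 = n
      · -- rotate by n - 1
        have hr := h.rot (n - 1) (by omega)
        refine hG (diamond_of_three (v := v) (i1 := 1) (i2 := n - 1) hr ?_ (by omega) (by omega) (by omega) ?_ ?_
          ?_ ?_ ?_)
        · intro i hi
          obtain ⟨j, hj, e⟩ := rot_mem (c := c) (n := n) (k := n - 1) (i := i) (by omega) hi
          rw [e]; exact hv j hj
        · rw [rot_zero (by omega)]
          rwa [show n - 1 = i2 by omega]
        · unfold rot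
          rw [if_neg (by omega)]
          rwa [show 1 + (n - 1) - n = 0 by omega]
        · unfold rot
          rw [if_neg (by omega)]
          rwa [show n - 1 + (n - 1) - n = i1 by omega]
        · intro i h1 h2; omega
        · intro i h1 h2; omega
      · have hr := h.rot i1 hi1n
        refine hG (diamond_of_three (v := v) (i1 := 1) (i2 := n - i1) hr ?_ (by omega) (by omega) (by omega) ?_ ?_
          ?_ ?_ ?_)
        · intro i hi
          obtain ⟨j, hj, e⟩ := rot_mem (c := c) (n := n) (k := i1) (i := i) (by omega) hi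
          rw [e]; exact hv j hj
        · rw [rot_zero (by omega)]; exact hi1
        · unfold rot
          rw [if_pos (by omega)]
          rwa [show 1 + i1 = i2 by omega]
        · unfold rot
          rw [if_neg (by omega)]
          rwa [show n - i1 + i1 - n = 0 by omega]
        · intro i h1 h2; omega
        · intro i h1 h2 ha
          unfold rot at ha
          rw [if_neg (by omega)] at ha
          rcases hall _ (by omega) ha with h | h | h <;> omega

/-- A connected set outside a hole is attached to at most one vertex of it, if there is no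
subdivision of the diamond. -/
theorem path_attach (hG : ¬ ITM diamond G) : ∀ (m : ℕ) (c : ℕ → V) (n : ℕ), IndCycle G c n → 4 ≤ n →
    ∀ q : ℕ → V, IndPath G q m → (∀ i ≤ m, ∀ j < n, q i ≠ c j) → ∀ i < n, ∀ j < n, i ≠ j →
    G.Adj (q 0) (c i) → G.Adj (q m) (c j) → False := by
  intro m
  induction m using Nat.strong_induction_on with
  | _ m ih =>
    intro c n h h4 q hq hqc i hi j hj hij h0 hm
    have hr := h.rot i hi
    obtain ⟨k, hk0, hkn, hk⟩ := rot_of (c := c) hi hj hij
    have hqr : ∀ x ≤ m, ∀ y < n, q x ≠ rot c n i y := by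
      intro x hx y hy
      obtain ⟨z, hz, e⟩ := rot_mem (c := c) (k := i) hi hy
      rw [e]; exact hqc x hx z hz
    have h0' : G.Adj (q 0) (rot c n i 0) := by rw [rot_zero hi]; exact h0
    have hm' : G.Adj (q m) (rot c n i k) := by rw [hk]; exact hm
    rcases Nat.eq_zero_or_pos m with hm0 | hm0
    · subst hm0
      exact vertex_attach hG hr h4 (hqr 0 (le_refl _)) h0' hk0 hkn hm'
    · -- sub-paths
      have sub0 : ∀ t ≤ m, ∀ x < n, ∀ y < n, x ≠ y → G.Adj (q t) (c x) → G.Adj (q t) (c y) → False := by
        intro t ht x hx y hy hxy h1 h2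
        refine ih 0 hm0 c n h h4 (fun _ => q t) ⟨fun a ha b hb _ => by omega, fun a ha b hb => ?_⟩
          (fun a _ b hb => hqc t ht b hb) x hx y hy hxy h1 h2
        exact ⟨fun h => absurd rfl h.ne, fun h => by omega⟩
      have key : ∀ t ≤ m, ∀ x < n, G.Adj (q t) (c x) → (x = i ∧ t = 0) ∨ (x = j ∧ t = m) := by
        intro t ht x hx ha
        by_cases ht0 : t = 0
        · left
          refine ⟨?_, ht0⟩
          by_contra hc
          subst ht0
          exact sub0 0 ht x hx i hi hc ha h0
        · by_cases htm : t = m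
          · right
            refine ⟨?_, htm⟩
            by_contra hc
            subst htm
            exact sub0 t ht x hx j hj hc ha hm
          · exfalso
            by_cases hxi : x = i
            · have hxj : x ≠ j := by rw [hxi]; exact hij
              refine ih (m - t) (by omega) c n h h4 (fun a => q (t + a)) ⟨fun a ha b hb e => ?_,
                fun a ha b hb => ?_⟩ (fun a ha b hb => hqc _ (by omega) b hb) x hx j hj hxj ha ?_
              · have := hq.1 (t + a) (by omega) (t + b) (by omega) e; omega
              · rw [hq.2 (t + a) (by omega) (t + b) (by omega)]; omega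
              · show G.Adj (q (t + (m - t))) (c j)
                rwa [show t + (m - t) = m by omega]
            · exact ih t (by omega) c n h h4 q ⟨fun a ha b hb e => hq.1 a (by omega) b (by omega) e,
                fun a ha b hb => hq.2 a (by omega) b (by omega)⟩
                (fun a ha b hb => hqc a (by omega) b hb) i hi x hx (Ne.symm hxi) h0 ha
      apply hG
      refine diamond_of_attach hr hk0 hkn hq hqr ?_
      intro t ht x hx
      constructor
      · intro ha
        by_cases hx0 : x = 0
        · subst hx0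
          rw [rot_zero hi] at ha
          rcases key t ht i hi ha with h | h
          · exact Or.inl ⟨rfl, h.2⟩
          · exact absurd h.1 hij
        · obtain ⟨z, hz, e⟩ := rot_mem (c := c) (k := i) hi hx
          have hzi : z ≠ i := by
            rintro rfl
            rw [← rot_zero (c := c) hi] at e
            exact hx0 (hr.inj _ hx _ (by omega) e)
          rw [e] at ha
          rcases key t ht z hz ha with h | h
          · exact absurd h.1 hzi
          · right
            refine ⟨?_, h.2⟩
            rw [h.1, ← hk] at e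
            exact hr.inj _ hx _ hkn e
      · rintro (⟨rfl, rfl⟩ | ⟨rfl, rfl⟩)
        · exact h0'
        · exact hm'

end Pool.Agent.L0h65.CW
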