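import Pool.Agent.H175R2.Defs

set_option autoImplicit false

/-!
# Small graphs
-/

namespace Pool.Agent.L0h65.CW

open Pool.Agent.H175R2

/-- a graph on four vertices from its six edges -/
def M4 (b01 b02 b03 b12 b13 b23 : Bool) (i j : Fin 4) : Bool :=
  match i.val, j.val with
  | 0, 1 => b01
  | 1, 0 => b01
  | 0, 2 => b02
  | 2, 0 => b02
  | 0, 3 => b03
  | 3, 0 => b03
  | 1, 2 => b12
  | 2, 1 => b12
  | 1, 3 => b13
  | 3, 1 => b13
  | 2, 3 => b23
  | 3, 2 => b23
  | _, _ => false

/-- path -/
def P4B : Fin 4 → Fin 4 → Bool := M4 true false false true false true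
/-- paw -/
def pawB : Fin 4 → Fin 4 → Bool := M4 true true true true false false
/-- diamond -/
def diaB : Fin 4 → Fin 4 → Bool := M4 true true true true true false

/-- conditions on a four-vertex graph: no independent triple -/
def CondA (p01 p02 p03 p12 p13 p23 : Prop) : Prop :=
  (p01 ∨ p02 ∨ p12) ∧ (p01 ∨ p03 ∨ p13) ∧ (p02 ∨ p03 ∨ p23) ∧ (p12 ∨ p13 ∨ p23)

/-- no `2K₂` -/
def CondB (p01 p02 p03 p12 p13 p23 : Prop) : Prop :=
  (p01 → p23 → p02 ∨ p03 ∨ p12 ∨ p13) ∧ (p02 → p13 → p01 ∨ p03 ∨ p12 ∨ p23) ∧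
    (p03 → p12 → p01 ∨ p02 ∨ p13 ∨ p23)

/-- auxiliary -/
def CC (q r a b c d : Prop) : Prop := ¬ q → ¬ r → a → b → c → d → False

instance (q r a b c d : Prop) [Decidable q] [Decidable r] [Decidable a] [Decidable b] [Decidable c]
    [Decidable d] : Decidable (CC q r a b c d) := by
  unfold CC; infer_instance

/-- auxiliary -/
def DD (a b c x y z : Prop) : Prop := a → b → c → x ∨ y ∨ z

instance (q r a b c d : Prop) [Decidable q] [Decidable r] [Decidable a] [Decidable b] [Decidable c]
    [Decidable d] : Decidable (DD q r a b c d) := by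
  unfold DD; infer_instance

/-- no `C₄` -/
def CondC (p01 p02 p03 p12 p13 p23 : Prop) : Prop :=
  CC p01 p23 p02 p03 p12 p13 ∧ CC p02 p13 p01 p03 p12 p23 ∧ CC p03 p12 p01 p02 p13 p23

/-- no triangle with an isolated vertex -/
def CondD (p01 p02 p03 p12 p13 p23 : Prop) : Prop :=
  DD p12 p13 p23 p01 p02 p03 ∧ DD p02 p03 p23 p01 p12 p13 ∧ DD p01 p03 p13 p02 p12 p23 ∧
    DD p01 p02 p12 p03 p13 p23

/-- all conditions -/
def Cond4 (p01 p02 p03 p12 p13 p23 : Prop) : Prop :=
  CondA p01 p02 p03 p12 p13 p23 ∧ CondB p01 p02 p03 p12 p13 p23 ∧ CondC p01 p02 p03 p12 p13 p23 ∧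
  CondD p01 p02 p03 p12 p13 p23 ∧ ¬ (p01 ∧ p02 ∧ p03 ∧ p12 ∧ p13 ∧ p23)

section
variable (p01 p02 p03 p12 p13 p23 : Prop) [Decidable p01] [Decidable p02] [Decidable p03]
    [Decidable p12] [Decidable p13] [Decidable p23]

instance : Decidable (CondA p01 p02 p03 p12 p13 p23) := by
  unfold CondA; infer_instance

instance : Decidable (CondB p01 p02 p03 p12 p13 p23) := by
  unfold CondB; infer_instance

instance : Decidable (CondC p01 p02 p03 p12 p13 p23) := by
  unfold CondC; infer_instance

instance : Decidable (CondD p01 p02 p03 p12 p13 p23) := by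
  unfold CondD; infer_instance

instance : Decidable (Cond4 p01 p02 p03 p12 p13 p23) := by
  unfold Cond4; infer_instance

end

/-- the vertices `a, b, c, d` of the graph `T` realize the given edges -/
def isoB (T : Fin 4 → Fin 4 → Bool) (b01 b02 b03 b12 b13 b23 : Bool) (a b c d : Fin 4) : Prop :=
  (a ≠ b ∧ a ≠ c ∧ a ≠ d ∧ b ≠ c ∧ b ≠ d ∧ c ≠ d) ∧ b01 = T a b ∧ b02 = T a c ∧ b03 = T a d ∧
    b12 = T b c ∧ b13 = T b d ∧ b23 = T c d

instance (T : Fin 4 → Fin 4 → Bool) (b01 b02 b03 b12 b13 b23 : Bool) (a b c d : Fin 4) :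
    Decidable (isoB T b01 b02 b03 b12 b13 b23 a b c d) := by
  unfold isoB; infer_instance

theorem small4 : ∀ b01 b02 b03 b12 b13 b23 : Bool,
    Cond4 (b01 = true) (b02 = true) (b03 = true) (b12 = true) (b13 = true) (b23 = true) →
    ∃ a b c d : Fin 4, isoB P4B b01 b02 b03 b12 b13 b23 a b c d ∨
      isoB pawB b01 b02 b03 b12 b13 b23 a b c d ∨ isoB diaB b01 b02 b03 b12 b13 b23 a b c d := by
  decide +kernel

theorem small3 : ∀ b01 b02 b12 : Bool, (b01 = true ∨ b02 = true ∨ b12 = true) →
    ∃ a b c : Fin 4, (a ≠ b ∧ a ≠ c ∧ b ≠ c) ∧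
      ((b01 = P4B a b ∧ b02 = P4B a c ∧ b12 = P4B b c) ∨
       (b01 = pawB a b ∧ b02 = pawB a c ∧ b12 = pawB b c)) := by
  decide +kernel

theorem small2 : ∀ b01 : Bool, ∃ a b : Fin 4, a ≠ b ∧ b01 = P4B a b := by
  decide +kernel

theorem p4B_adj (i j : Fin 4) : (SimpleGraph.pathGraph 4).Adj i j ↔ P4B i j = true := by
  rw [SimpleGraph.pathGraph_adj]
  revert i j
  decide

theorem pawB_adj (i j : Fin 4) : paw.Adj i j ↔ pawB i j = true := by
  unfold paw
  rw [SimpleGraph.fromRel_adj]
  revert i j
  decide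

theorem diaB_adj (i j : Fin 4) : diamond.Adj i j ↔ diaB i j = true := by
  unfold diamond
  rw [SimpleGraph.fromRel_adj]
  revert i j
  decide

/-- a graph on at most four vertices, embedded by a vector -/
theorem embed_of {W : Type} {m : ℕ} {H : SimpleGraph W} {T : SimpleGraph (Fin 4)} (e : Fin m ≃ W)
    (v : Fin m → Fin 4) (hv : Function.Injective v)
    (hadj : ∀ i j, i < j → (H.Adj (e i) (e j) ↔ T.Adj (v i) (v j))) : H.IsIndContained T := by
  refine ⟨⟨⟨fun w => v (e.symm w), hv.comp e.symm.injective⟩, ?_⟩⟩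
  intro x y
  show T.Adj (v (e.symm x)) (v (e.symm y)) ↔ H.Adj x y
  obtain ⟨i, rfl⟩ := e.surjective x
  obtain ⟨j, rfl⟩ := e.surjective y
  rw [e.symm_apply_apply, e.symm_apply_apply]
  rcases lt_trichotomy i j with h | h | h
  · exact (hadj i j h).symm
  · subst h
    exact ⟨fun h => absurd rfl h.ne, fun h => absurd rfl h.ne⟩
  · rw [T.adj_comm, H.adj_comm]
    exact (hadj j i h).symm

open Classical in
theorem classify {W : Type} [Finite W] (H : SimpleGraph W)
    (c1 : ∀ x a b c d, H.Adj x a → H.Adj x b → H.Adj x c → H.Adj x d → a ≠ b → a ≠ c → a ≠ d →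
      b ≠ c → b ≠ d → c ≠ d → False)
    (c2 : ∀ x y z, x ≠ y → x ≠ z → y ≠ z → H.Adj x y ∨ H.Adj x z ∨ H.Adj y z)
    (c3 : ∃ K : Set W, (∀ x ∈ K, ∀ y ∈ K, x ≠ y → H.Adj x y) ∧ ∀ x, x ∉ K → ∀ y, y ∉ K → ¬ H.Adj x y)
    (c4 : ∀ p x y z, H.Adj x y → H.Adj x z → H.Adj y z → p ≠ x → p ≠ y → p ≠ z →
      H.Adj p x ∨ H.Adj p y ∨ H.Adj p z)
    (c5 : ¬ Nonempty (H ≃g (⊤ : SimpleGraph (Fin 4)))) :
    H.IsIndContained (SimpleGraph.pathGraph 4) ∨ H.IsIndContained paw ∨ H.IsIndContained diamond := by
  have : Fintype W := Fintype.ofFinite W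
  obtain ⟨K, hK, hI⟩ := c3
  -- at most four vertices
  have hcard : Fintype.card W ≤ 4 := by
    by_contra hc
    set KK : Finset W := Finset.univ.filter (fun x => x ∈ K) with hKK
    set II : Finset W := Finset.univ.filter (fun x => x ∉ K) with hII
    have hsum : KK.card + II.card = Fintype.card W := by
      rw [hKK, hII, Finset.card_filter_add_card_filter_not, Finset.card_univ]
    have mK : ∀ x, x ∈ KK ↔ x ∈ K := fun x => by simp [hKK]
    have mI : ∀ x, x ∈ II ↔ x ∉ K := fun x => by simp [hII]
    have hI2 : II.card ≤ 2 := by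
      by_contra h
      push Not at h
      rw [Finset.two_lt_card] at h
      obtain ⟨x, hx, y, hy, z, hz, n1, n2, n3⟩ := h
      rw [mI] at hx hy hz
      rcases c2 x y z n1 n2 n3 with h | h | h
      · exact hI x hx y hy h
      · exact hI x hx z hz h
      · exact hI y hy z hz h
    have hK4 : KK.card ≤ 4 := by
      by_contra h
      push Not at h
      obtain ⟨x, hx⟩ : KK.Nonempty := Finset.card_pos.1 (by omega)
      have h2 : 3 < (KK.erase x).card := by rw [Finset.card_erase_of_mem hx]; omega
      obtain ⟨S, hS, hS4⟩ := Finset.exists_subset_card_eq (s := KK.erase x) (n := 4) (by omega)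
      obtain ⟨a, b, c, d, n1, n2, n3, n4, n5, n6, rfl⟩ := Finset.card_eq_four.1 hS4
      have key : ∀ y ∈ ({a, b, c, d} : Finset W), H.Adj x y := by
        intro y hy
        have h3 := Finset.mem_erase.1 (hS hy)
        exact hK x ((mK x).1 hx) y ((mK y).1 h3.2) h3.1.symm
      exact c1 x a b c d (key a (by simp)) (key b (by simp)) (key c (by simp)) (key d (by simp))
        n1 n2 n3 n4 n5 n6
    by_cases h4 : KK.card = 4
    · obtain ⟨v, hv⟩ : II.Nonempty := Finset.card_pos.1 (by omega)
      rw [mI] at hv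
      obtain ⟨a, b, c, d, n1, n2, n3, n4, n5, n6, hS⟩ := Finset.card_eq_four.1 h4
      have key : ∀ y ∈ ({a, b, c, d} : Finset W), y ∈ K := by
        intro y hy
        rw [← hS, mK] at hy
        exact hy
      have ka := key a (by simp)
      have kb := key b (by simp)
      have kc := key c (by simp)
      have kd := key d (by simp)
      have va : v ≠ a := by rintro rfl; exact hv ka
      have vb : v ≠ b := by rintro rfl; exact hv kb
      have vc : v ≠ c := by rintro rfl; exact hv kc
      have vd : v ≠ d := by rintro rfl; exact hv kd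
      rcases c4 v a b c (hK _ ka _ kb n1) (hK _ ka _ kc n2) (hK _ kb _ kc n4) va vb vc with h | h | h
      · exact c1 a b c d v (hK _ ka _ kb n1) (hK _ ka _ kc n2) (hK _ ka _ kd n3) h.symm n4 n5
          vb.symm n6 vc.symm vd.symm
      · exact c1 b a c d v (hK _ kb _ ka n1.symm) (hK _ kb _ kc n4) (hK _ kb _ kd n5) h.symm n2 n3
          va.symm n6 vc.symm vd.symm
      · exact c1 c a b d v (hK _ kc _ ka n2.symm) (hK _ kc _ kb n4.symm) (hK _ kc _ kd n6) h.symm n1
          n3 va.symm n5 vb.symm vd.symm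
    · have h3 : KK.card = 3 := by omega
      have hI3 : II.card = 2 := by omega
      obtain ⟨a, b, c, n1, n2, n3, hS⟩ := Finset.card_eq_three.1 h3
      obtain ⟨u, v, nuv, hS'⟩ := Finset.card_eq_two.1 hI3
      have ka : a ∈ K := by rw [← mK, hS]; simp
      have kb : b ∈ K := by rw [← mK, hS]; simp
      have kc : c ∈ K := by rw [← mK, hS]; simp
      have ku : u ∉ K := by rw [← mI, hS']; simp
      have kv : v ∉ K := by rw [← mI, hS']; simp
      have hab := hK _ ka _ kb n1
      have hac := hK _ ka _ kc n2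
      have hbc := hK _ kb _ kc n3
      have huv := hI u ku v kv
      have au : a ≠ u := by rintro rfl; exact ku ka
      have av : a ≠ v := by rintro rfl; exact kv ka
      have bu : b ≠ u := by rintro rfl; exact ku kb
      have bv : b ≠ v := by rintro rfl; exact kv kb
      have cu : c ≠ u := by rintro rfl; exact ku kc
      have cv : c ≠ v := by rintro rfl; exact kv kc
      have exa : H.Adj a u ∨ H.Adj a v := by
        rcases c2 a u v au av nuv with h | h | h
        · exact Or.inl h
        · exact Or.inr h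
        · exact absurd h huv
      have exb : H.Adj b u ∨ H.Adj b v := by
        rcases c2 b u v bu bv nuv with h | h | h
        · exact Or.inl h
        · exact Or.inr h
        · exact absurd h huv
      have exc : H.Adj c u ∨ H.Adj c v := by
        rcases c2 c u v cu cv nuv with h | h | h
        · exact Or.inl h
        · exact Or.inr h
        · exact absurd h huv
      have na : ¬ (H.Adj a u ∧ H.Adj a v) := fun h =>
        c1 a b c u v hab hac h.1 h.2 n3 bu bv cu cv nuv
      have nb : ¬ (H.Adj b u ∧ H.Adj b v) := fun h =>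
        c1 b a c u v hab.symm hbc h.1 h.2 n2 au av cu cv nuv
      have nc : ¬ (H.Adj c u ∧ H.Adj c v) := fun h =>
        c1 c a b u v hac.symm hbc.symm h.1 h.2 n1 au av bu bv nuv
      have hvu : ¬ H.Adj v u := fun h => huv h.symm
      have s1 : H.Adj a u → H.Adj b u → False := by
        intro h1 h2
        rcases c4 v u a b h1.symm h2.symm hab nuv.symm av.symm bv.symm with h | h | h
        · exact hvu h
        · exact na ⟨h1, h.symm⟩
        · exact nb ⟨h2, h.symm⟩
      have s2 : H.Adj a u → H.Adj c u → False := by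
        intro h1 h2
        rcases c4 v u a c h1.symm h2.symm hac nuv.symm av.symm cv.symm with h | h | h
        · exact hvu h
        · exact na ⟨h1, h.symm⟩
        · exact nc ⟨h2, h.symm⟩
      have s3 : H.Adj b u → H.Adj c u → False := by
        intro h1 h2
        rcases c4 v u b c h1.symm h2.symm hbc nuv.symm bv.symm cv.symm with h | h | h
        · exact hvu h
        · exact nb ⟨h1, h.symm⟩
        · exact nc ⟨h2, h.symm⟩
      have s4 : H.Adj a v → H.Adj b v → False := by
        intro h1 h2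
        rcases c4 u v a b h1.symm h2.symm hab nuv au.symm bu.symm with h | h | h
        · exact huv h
        · exact na ⟨h.symm, h1⟩
        · exact nb ⟨h.symm, h2⟩
      have s5 : H.Adj a v → H.Adj c v → False := by
        intro h1 h2
        rcases c4 u v a c h1.symm h2.symm hac nuv au.symm cu.symm with h | h | h
        · exact huv h
        · exact na ⟨h.symm, h1⟩
        · exact nc ⟨h.symm, h2⟩
      have s6 : H.Adj b v → H.Adj c v → False := by
        intro h1 h2
        rcases c4 u v b c h1.symm h2.symm hbc nuv bu.symm cu.symm with h | h | h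
        · exact huv h
        · exact nb ⟨h.symm, h1⟩
        · exact nc ⟨h.symm, h2⟩
      rcases exa with h1 | h1 <;> rcases exb with h2 | h2 <;> rcases exc with h3 | h3
      · exact s1 h1 h2
      · exact s1 h1 h2
      · exact s2 h1 h3
      · exact s6 h2 h3
      · exact s3 h2 h3
      · exact s5 h1 h3
      · exact s4 h1 h2
      · exact s4 h1 h2
  obtain ⟨m, hm⟩ : ∃ m, Fintype.card W = m := ⟨_, rfl⟩
  rw [hm] at hcard
  have e : Fin m ≃ W := (Fintype.equivFinOfCardEq hm).symm
  have two : ∀ a b c d, a ≠ c → a ≠ d → b ≠ c → b ≠ d → H.Adj a b → H.Adj c d → H.Adj a c ∨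
      H.Adj a d ∨ H.Adj b c ∨ H.Adj b d := by
    intro a b c d nac nad nbc nbd hab hcd
    by_contra hcon
    push Not at hcon
    obtain ⟨q1, q2, q3, q4⟩ := hcon
    have kab : a ∈ K ∨ b ∈ K := by
      by_contra h
      push Not at h
      exact hI a h.1 b h.2 hab
    have kcd : c ∈ K ∨ d ∈ K := by
      by_contra h
      push Not at h
      exact hI c h.1 d h.2 hcd
    rcases kab with h | h <;> rcases kcd with h' | h'
    · exact q1 (hK _ h _ h' nac)
    · exact q2 (hK _ h _ h' nad)
    · exact q3 (hK _ h _ h' nbc)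
    · exact q4 (hK _ h _ h' nbd)
  have cyc : ∀ a b c d, a ≠ b → c ≠ d → ¬ H.Adj a b → ¬ H.Adj c d → H.Adj a c → H.Adj a d →
      H.Adj b c → H.Adj b d → False := by
    intro a b c d nab ncd h1 h2 h3 h4 h5 h6
    have kab : a ∉ K ∨ b ∉ K := by
      by_contra h
      push Not at h
      exact h1 (hK a h.1 b h.2 nab)
    have kcd : c ∉ K ∨ d ∉ K := by
      by_contra h
      push Not at h
      exact h2 (hK c h.1 d h.2 ncd)
    rcases kab with h | h <;> rcases kcd with h' | h'
    · exact hI _ h _ h' h3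
    · exact hI _ h _ h' h4
    · exact hI _ h _ h' h5
    · exact hI _ h _ h' h6
  have bd : ∀ (p : Prop) (b : Bool), decide p = b → (p ↔ b = true) := by
    intro p b h
    rw [← h]; simp
  interval_cases m
  · left
    exact embed_of e (fun i => i.elim0) (fun i => i.elim0) (fun i => i.elim0)
  · left
    refine embed_of e (fun _ => 0) (fun i j _ => Subsingleton.elim i j) (fun i j h => ?_)
    exact absurd (Subsingleton.elim i j) h.ne
  · left
    obtain ⟨a, b, nab, h01⟩ := small2 (decide (H.Adj (e 0) (e 1)))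
    refine embed_of e ![a, b] ?_ ?_
    · intro i j
      fin_cases i <;> fin_cases j <;> simp [nab, nab.symm]
    · intro i j hij
      fin_cases i <;> fin_cases j <;> simp at hij ⊢
      rw [p4B_adj]
      exact bd _ _ h01
  · have h3 := c2 (e 0) (e 1) (e 2) (by simp) (by simp) (by simp)
    obtain ⟨a, b, c, ⟨n1, n2, n3⟩, h⟩ := small3 (decide (H.Adj (e 0) (e 1)))
      (decide (H.Adj (e 0) (e 2))) (decide (H.Adj (e 1) (e 2))) (by simpa using h3)
    have hinj : Function.Injective ![a, b, c] := by
      intro i j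
      fin_cases i <;> fin_cases j <;> simp [n1, n2, n3, n1.symm, n2.symm, n3.symm]
    rcases h with ⟨h01, h02, h12⟩ | ⟨h01, h02, h12⟩
    · left
      refine embed_of e ![a, b, c] hinj ?_
      intro i j hij
      fin_cases i <;> fin_cases j <;> simp at hij ⊢ <;> rw [p4B_adj]
      · exact bd _ _ h01
      · exact bd _ _ h02
      · exact bd _ _ h12
    · right; left
      refine embed_of e ![a, b, c] hinj ?_
      intro i j hij
      fin_cases i <;> fin_cases j <;> simp at hij ⊢ <;> rw [pawB_adj]
      · exact bd _ _ h01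
      · exact bd _ _ h02
      · exact bd _ _ h12
  · have ne : ∀ i j : Fin 4, i ≠ j → e i ≠ e j := fun i j h => e.injective.ne h
    have hcond : Cond4 (decide (H.Adj (e 0) (e 1)) = true) (decide (H.Adj (e 0) (e 2)) = true)
        (decide (H.Adj (e 0) (e 3)) = true) (decide (H.Adj (e 1) (e 2)) = true)
        (decide (H.Adj (e 1) (e 3)) = true) (decide (H.Adj (e 2) (e 3)) = true) := by
      have n01 := ne 0 1 (by simp)
      have n02 := ne 0 2 (by simp)
      have n03 := ne 0 3 (by simp)
      have n12 := ne 1 2 (by simp)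
      have n13 := ne 1 3 (by simp)
      have n23 := ne 2 3 (by simp)
      have s10 := H.adj_comm (e 1) (e 0)
      have s20 := H.adj_comm (e 2) (e 0)
      have s30 := H.adj_comm (e 3) (e 0)
      have s21 := H.adj_comm (e 2) (e 1)
      have s31 := H.adj_comm (e 3) (e 1)
      have s32 := H.adj_comm (e 3) (e 2)
      have b2 := two (e 0) (e 2) (e 1) (e 3) n01 n03 n12.symm n23
      have b3 := two (e 0) (e 3) (e 1) (e 2) n01 n02 n13.symm n23.symm
      have d2 := cyc (e 0) (e 2) (e 1) (e 3) n02 n13
      have d3 := cyc (e 0) (e 3) (e 1) (e 2) n03 n12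
      have t1 := fun h1 h2 h3 => c4 (e 1) (e 0) (e 2) (e 3) h1 h2 h3 n01.symm n12 n13
      have t2 := fun h1 h2 h3 => c4 (e 2) (e 0) (e 1) (e 3) h1 h2 h3 n02.symm n12.symm n23
      have t3 := fun h1 h2 h3 => c4 (e 3) (e 0) (e 1) (e 2) h1 h2 h3 n03.symm n13.symm n23.symm
      simp only [s10, s20, s30, s21, s31, s32] at b2 b3 d2 d3 t1 t2 t3
      simp only [decide_eq_true_eq]
      refine ⟨⟨c2 _ _ _ n01 n02 n12, c2 _ _ _ n01 n03 n13, c2 _ _ _ n02 n03 n23,
        c2 _ _ _ n12 n13 n23⟩, ⟨two _ _ _ _ n02 n03 n12 n13, b2, ?_⟩,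
        ⟨cyc _ _ _ _ n01 n23, d2, d3⟩, ⟨fun h1 h2 h3 => c4 _ _ _ _ h1 h2 h3 n01 n02 n03,
        t1, t2, t3⟩, ?_⟩
      · intro h1 h2
        rcases b3 h1 h2 with h | h | h | h
        · exact Or.inl h
        · exact Or.inr (Or.inl h)
        · exact Or.inr (Or.inr (Or.inl h))
        · exact Or.inr (Or.inr (Or.inr h))
      · rintro ⟨h1, h2, h3, h4, h5, h6⟩
        apply c5
        refine ⟨⟨e.symm, ?_⟩⟩
        intro x y
        obtain ⟨i, rfl⟩ := e.surjective x
        obtain ⟨j, rfl⟩ := e.surjective y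
        simp only [Equiv.symm_apply_apply, SimpleGraph.top_adj]
        constructor
        · intro hij
          fin_cases i <;> fin_cases j
          · exact absurd rfl hij
          · exact h1
          · exact h2
          · exact h3
          · exact h1.symm
          · exact absurd rfl hij
          · exact h4
          · exact h5
          · exact h2.symm
          · exact h4.symm
          · exact absurd rfl hij
          · exact h6
          · exact h3.symm
          · exact h5.symm
          · exact h6.symm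
          · exact absurd rfl hij
        · rintro h rfl
          exact absurd rfl h.ne
    obtain ⟨a, b, c, d, h⟩ := small4 _ _ _ _ _ _ hcond
    have hinj : (a ≠ b ∧ a ≠ c ∧ a ≠ d ∧ b ≠ c ∧ b ≠ d ∧ c ≠ d) →
        Function.Injective ![a, b, c, d] := by
      rintro ⟨n1, n2, n3, n4, n5, n6⟩ i j
      fin_cases i <;> fin_cases j <;> simp [n1, n2, n3, n4, n5, n6, n1.symm, n2.symm, n3.symm,
        n4.symm, n5.symm, n6.symm]
    rcases h with ⟨hne, h01, h02, h03, h12, h13, h23⟩ | ⟨hne, h01, h02, h03, h12, h13, h23⟩ |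
      ⟨hne, h01, h02, h03, h12, h13, h23⟩
    · left
      refine embed_of e ![a, b, c, d] (hinj hne) ?_
      intro i j hij
      fin_cases i <;> fin_cases j <;> simp at hij ⊢ <;> rw [p4B_adj]
      · exact bd _ _ h01
      · exact bd _ _ h02
      · exact bd _ _ h03
      · exact bd _ _ h12
      · exact bd _ _ h13
      · exact bd _ _ h23
    · right; left
      refine embed_of e ![a, b, c, d] (hinj hne) ?_
      intro i j hij
      fin_cases i <;> fin_cases j <;> simp at hij ⊢ <;> rw [pawB_adj]
      · exact bd _ _ h01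
      · exact bd _ _ h02
      · exact bd _ _ h03
      · exact bd _ _ h12
      · exact bd _ _ h13
      · exact bd _ _ h23
    · right; right
      refine embed_of e ![a, b, c, d] (hinj hne) ?_
      intro i j hij
      fin_cases i <;> fin_cases j <;> simp at hij ⊢ <;> rw [diaB_adj]
      · exact bd _ _ h01
      · exact bd _ _ h02
      · exact bd _ _ h03
      · exact bd _ _ h12
      · exact bd _ _ h13
      · exact bd _ _ h23

end Pool.Agent.L0h65.CW
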