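import Pool.Agent.H175R2.Cut

set_option autoImplicit false

/-!
# A subcubic claw-free family with unbounded clique-width

`TG n` consists of `2 n²` triangles joined by a matching in a grid-like way.
-/

namespace Pool.Agent.L0h65.CW

open Pool.Agent.H175R2 Finset Classical

/-- vertices: `(i, j, b, c)`; `(i, j, b)` is a triangle -/
abbrev TV (n : ℕ) : Type := Fin n × Fin n × Bool × Fin 3

/-- `x` and `y` are in the same triangle -/
def sameT {n : ℕ} (x y : TV n) : Prop := x.1 = y.1 ∧ x.2.1 = y.2.1 ∧ x.2.2.1 = y.2.2.1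

/-- the relation generating `TG n` -/
def tgRel {n : ℕ} (x y : TV n) : Prop :=
  sameT x y ∨
  (x.1 = y.1 ∧ x.2.1.val + 1 = y.2.1.val ∧ x.2.2 = (false, 1) ∧ y.2.2 = (false, 0)) ∨
  (x.1.val + 1 = y.1.val ∧ x.2.1 = y.2.1 ∧ x.2.2 = (true, 1) ∧ y.2.2 = (true, 0)) ∨
  (x.1 = y.1 ∧ x.2.1 = y.2.1 ∧ x.2.2 = (false, 2) ∧ y.2.2 = (true, 2))

/-- the graph -/
def TG (n : ℕ) : SimpleGraph (TV n) := SimpleGraph.fromRel tgRel

theorem tg_adj {n : ℕ} (x y : TV n) : (TG n).Adj x y ↔ x ≠ y ∧ (tgRel x y ∨ tgRel y x) :=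
  SimpleGraph.fromRel_adj _ _ _

theorem partner {n : ℕ} {x y z : TV n} (hxy : (TG n).Adj x y) (hxz : (TG n).Adj x z)
    (hy : ¬ sameT x y) (hz : ¬ sameT x z) : y = z := by
  rw [tg_adj] at hxy hxz
  obtain ⟨-, hxy⟩ := hxy
  obtain ⟨-, hxz⟩ := hxz
  have hy' : ¬ sameT y x := fun h => hy ⟨h.1.symm, h.2.1.symm, h.2.2.symm⟩
  have hz' : ¬ sameT z x := fun h => hz ⟨h.1.symm, h.2.1.symm, h.2.2.symm⟩
  obtain ⟨i, j, b, c⟩ := x
  obtain ⟨i1, j1, b1, c1⟩ := y
  obtain ⟨i2, j2, b2, c2⟩ := z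
  simp only [tgRel, hy, hy', hz, hz', false_or, Prod.mk.injEq] at hxy hxz
  rcases hxy with (⟨e1, e2, ⟨e3, e4⟩, e5, e6⟩ | ⟨e1, e2, ⟨e3, e4⟩, e5, e6⟩ |
      ⟨e1, e2, ⟨e3, e4⟩, e5, e6⟩) | (⟨e1, e2, ⟨e3, e4⟩, e5, e6⟩ | ⟨e1, e2, ⟨e3, e4⟩, e5, e6⟩ |
      ⟨e1, e2, ⟨e3, e4⟩, e5, e6⟩) <;>
  rcases hxz with (⟨f1, f2, ⟨f3, f4⟩, f5, f6⟩ | ⟨f1, f2, ⟨f3, f4⟩, f5, f6⟩ |
      ⟨f1, f2, ⟨f3, f4⟩, f5, f6⟩) | (⟨f1, f2, ⟨f3, f4⟩, f5, f6⟩ | ⟨f1, f2, ⟨f3, f4⟩, f5, f6⟩ |
      ⟨f1, f2, ⟨f3, f4⟩, f5, f6⟩) <;>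
  first
    | (exfalso; subst_vars; simp_all; done)
    | (simp only [Prod.mk.injEq, Fin.ext_iff] at *; omega)
    | (subst_vars; simp only [Prod.mk.injEq, Fin.ext_iff, and_true, true_and]; omega)
    | (subst_vars; rfl)

theorem sameT_symm {n : ℕ} {x y : TV n} (h : sameT x y) : sameT y x :=
  ⟨h.1.symm, h.2.1.symm, h.2.2.symm⟩

theorem sameT_trans {n : ℕ} {x y z : TV n} (h : sameT x y) (h' : sameT y z) : sameT x z :=
  ⟨h.1.trans h'.1, h.2.1.trans h'.2.1, h.2.2.trans h'.2.2⟩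

theorem adj_of_same {n : ℕ} {x y : TV n} (h : sameT x y) (hne : x ≠ y) : (TG n).Adj x y := by
  rw [tg_adj]
  exact ⟨hne, Or.inl (Or.inl h)⟩

/-- at most three vertices in a triangle -/
theorem four_same {n : ℕ} {x y z w : TV n} (h1 : sameT x y) (h2 : sameT x z) (h3 : sameT x w)
    (n1 : x ≠ y) (n2 : x ≠ z) (n3 : x ≠ w) (n4 : y ≠ z) (n5 : y ≠ w) (n6 : z ≠ w) : False := by
  have key : ∀ {x y : TV n}, sameT x y → x ≠ y → x.2.2.2 ≠ y.2.2.2 := by
    rintro ⟨i, j, b, c⟩ ⟨i', j', b', c'⟩ ⟨h1, h2, h3⟩ hne h4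
    simp only at h1 h2 h3 h4
    subst h1; subst h2; subst h3; subst h4
    exact hne rfl
  have k1 := key h1 n1
  have k2 := key h2 n2
  have k3 := key h3 n3
  have k4 := key (sameT_trans (sameT_symm h1) h2) n4
  have k5 := key (sameT_trans (sameT_symm h1) h3) n5
  have k6 := key (sameT_trans (sameT_symm h2) h3) n6
  simp only [ne_eq, Fin.ext_iff] at k1 k2 k3 k4 k5 k6
  omega

/-- maximum degree three -/
theorem tg_degree {n : ℕ} {x a b c d : TV n} (ha : (TG n).Adj x a) (hb : (TG n).Adj x b)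
    (hc : (TG n).Adj x c) (hd : (TG n).Adj x d) (n1 : a ≠ b) (n2 : a ≠ c) (n3 : a ≠ d) (n4 : b ≠ c)
    (n5 : b ≠ d) (n6 : c ≠ d) : False := by
  by_cases sa : sameT x a
  · by_cases sb : sameT x b
    · by_cases sc : sameT x c
      · exact four_same sa sb sc ha.ne hb.ne hc.ne n1 n2 n4
      · by_cases sd : sameT x d
        · exact four_same sa sb sd ha.ne hb.ne hd.ne n1 n3 n5
        · exact n6 (partner hc hd sc sd)
    · by_cases sc : sameT x c
      · by_cases sd : sameT x d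
        · exact four_same sa sc sd ha.ne hc.ne hd.ne n2 n3 n6
        · exact n5 (partner hb hd sb sd)
      · exact n4 (partner hb hc sb sc)
  · by_cases sb : sameT x b
    · by_cases sc : sameT x c
      · by_cases sd : sameT x d
        · exact four_same sb sc sd hb.ne hc.ne hd.ne n4 n5 n6
        · exact n3 (partner ha hd sa sd)
      · exact n2 (partner ha hc sa sc)
    · exact n1 (partner ha hb sa sb)

/-- among three neighbours of a vertex, two are adjacent -/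
theorem tg_claw {n : ℕ} {x a b c : TV n} (ha : (TG n).Adj x a) (hb : (TG n).Adj x b)
    (hc : (TG n).Adj x c) (n1 : a ≠ b) (n2 : a ≠ c) (n3 : b ≠ c) :
    (TG n).Adj a b ∨ (TG n).Adj a c ∨ (TG n).Adj b c := by
  by_cases sa : sameT x a
  · by_cases sb : sameT x b
    · exact Or.inl (adj_of_same (sameT_trans (sameT_symm sa) sb) n1)
    · by_cases sc : sameT x c
      · exact Or.inr (Or.inl (adj_of_same (sameT_trans (sameT_symm sa) sc) n2))
      · exact absurd (partner hb hc sb sc) n3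
  · by_cases sb : sameT x b
    · by_cases sc : sameT x c
      · exact Or.inr (Or.inr (adj_of_same (sameT_trans (sameT_symm sb) sc) n3))
      · exact absurd (partner ha hc sa sc) n2
    · exact absurd (partner ha hb sa sb) n1

/-- every triangle is one of the given ones -/
theorem tg_tri {n : ℕ} {x y z : TV n} (h1 : (TG n).Adj x y) (h2 : (TG n).Adj x z)
    (h3 : (TG n).Adj y z) : sameT x y := by
  by_contra hs
  by_cases h : sameT x z
  · have hs' : ¬ sameT y x := fun h => hs (sameT_symm h)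
    have hs2 : ¬ sameT y z := fun h' => hs (sameT_trans h (sameT_symm h'))
    exact h2.ne (partner h1.symm h3 hs' hs2)
  · exact h3.ne (partner h1 h2 hs h)

/-- two triangles do not share an edge -/
theorem tg_two_tri {n : ℕ} {x y z w : TV n} (h1 : (TG n).Adj x y) (h2 : (TG n).Adj x z)
    (h3 : (TG n).Adj y z) (h4 : (TG n).Adj x w) (h5 : (TG n).Adj y w) (hne : z ≠ w) : False :=
  four_same (tg_tri h1 h2 h3) (tg_tri h2 h1 h3.symm) (tg_tri h4 h1 h5.symm) h1.ne h2.ne h4.ne h3.ne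
    h5.ne hne

/-- swapping the coordinates -/
def swapTG (n : ℕ) : TG n ≃g TG n where
  toFun x := (x.2.1, x.1, !x.2.2.1, x.2.2.2)
  invFun x := (x.2.1, x.1, !x.2.2.1, x.2.2.2)
  left_inv x := by simp
  right_inv x := by simp
  map_rel_iff' := by
    rintro ⟨i, j, b, c⟩ ⟨i', j', b', c'⟩
    simp only [Equiv.coe_fn_mk, tg_adj, tgRel, sameT, ne_eq, Prod.mk.injEq]
    cases b <;> cases b' <;> simp <;> tauto

theorem row_const {n : ℕ} (P : TV n → Prop) (i : Fin n)
    (h : ∀ x y, (TG n).Adj x y → x.1 = i → y.1 = i → (P x ↔ P y)) (x y : TV n) (hx : x.1 = i)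
    (hy : y.1 = i) : P x ↔ P y := by
  have tri : ∀ (j : Fin n) (b : Bool) (c c' : Fin 3), P (i, j, b, c) ↔ P (i, j, b, c') := by
    intro j b c c'
    by_cases hc : c = c'
    · rw [hc]
    · apply h _ _ _ rfl rfl
      refine adj_of_same (x := (i, j, b, c)) (y := (i, j, b, c')) ⟨rfl, rfl, rfl⟩ ?_
      intro e
      simp only [Prod.mk.injEq, true_and] at e
      exact hc e
  have rung : ∀ j : Fin n, P (i, j, false, 2) ↔ P (i, j, true, 2) := by
    intro j
    apply h _ _ _ rfl rfl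
    rw [tg_adj]
    exact ⟨by simp, Or.inl (Or.inr (Or.inr (Or.inr ⟨rfl, rfl, rfl, rfl⟩)))⟩
  have blk : ∀ (j : Fin n) (b : Bool) (c : Fin 3), P (i, j, b, c) ↔ P (i, j, false, 0) := by
    intro j b c
    cases b
    · exact tri j false c 0
    · rw [tri j true c 2, ← rung j]
      exact tri j false 2 0
  have stepj : ∀ (j : ℕ) (hj : j + 1 < n),
      P (i, ⟨j, by omega⟩, false, 0) ↔ P (i, ⟨j + 1, hj⟩, false, 0) := by
    intro j hj
    rw [tri _ false 0 1]
    apply h _ _ _ rfl rfl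
    rw [tg_adj]
    exact ⟨by simp, Or.inl (Or.inr (Or.inl ⟨rfl, rfl, rfl, rfl⟩))⟩
  have all : ∀ (j : ℕ) (hj : j < n), P (i, ⟨j, hj⟩, false, 0) ↔ P (i, ⟨0, by omega⟩, false, 0) := by
    intro j
    induction j with
    | zero => intro _; rfl
    | succ j ih => intro hj; rw [← stepj j hj]; exact ih _
  obtain ⟨i1, j1, b1, c1⟩ := x
  obtain ⟨i2, j2, b2, c2⟩ := y
  simp only at hx hy
  subst hx; subst hy
  rw [blk j1, blk j2]
  exact (all j1.1 j1.2).trans (all j2.1 j2.2).symm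

/-- mixed rows -/
noncomputable def mixedT {n : ℕ} (A : Set (TV n)) : Finset (Fin n) :=
  univ.filter (fun i => (∃ x ∈ A, x.1 = i) ∧ ∃ x, x ∉ A ∧ x.1 = i)

theorem mixedT_le {n k : ℕ} (A : Set (TV n)) (h : Types (TG n) A k) : (mixedT A).card ≤ 2 * k := by
  obtain ⟨l, hl⟩ := h
  have hch : ∀ i : Fin n, i ∈ mixedT A → ∃ a b : TV n, a ∈ A ∧ b ∉ A ∧ a.1 = i ∧ b.1 = i ∧
      (TG n).Adj a b := by
    intro i hi
    simp only [mixedT, mem_filter, mem_univ, true_and] at hi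
    obtain ⟨⟨x, hxA, hx⟩, y, hyA, hy⟩ := hi
    by_contra hcon
    push Not at hcon
    refine hyA ((row_const (fun z => z ∈ A) i ?_ x y hx hy).1 hxA)
    intro a b hab ha hb
    constructor
    · intro haA
      by_contra hbA
      exact hcon a b haA hbA ha hb hab
    · intro hbA
      by_contra haA
      exact hcon b a hbA haA hb ha hab.symm
  choose! a b ha hb ha1 hb1 hab using hch
  by_contra hcon
  push Not at hcon
  have hcard : (Finset.univ : Finset (Fin k)).card * 2 < (mixedT A).card := by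
    simp; omega
  obtain ⟨t, _, ht⟩ := Finset.exists_lt_card_fiber_of_mul_lt_card_of_maps_to
    (f := fun i => l (a i)) (s := mixedT A) (t := Finset.univ) (fun _ _ => Finset.mem_univ _) hcard
  rw [Finset.two_lt_card] at ht
  obtain ⟨x, hx, y, hy, z, hz, hxy, hxz, hyz⟩ := ht
  simp only [Finset.mem_filter] at hx hy hz
  have key : ∀ x y : Fin n, x ∈ mixedT A → y ∈ mixedT A → l (a x) = l (a y) →
      x.val ≤ y.val + 1 := by
    intro x y hx hy hxy
    have h2 := (hl _ (ha x hx) _ (ha y hy) hxy _ (hb x hx)).1 (hab x hx)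
    rw [tg_adj] at h2
    have e1 := ha1 y hy
    have e2 := hb1 x hx
    rcases h2.2 with (⟨h, _⟩ | ⟨h, _⟩ | ⟨h, _⟩ | ⟨h, _⟩) | (⟨h, _⟩ | ⟨h, _⟩ | ⟨h, _⟩ | ⟨h, _⟩) <;>
    · rw [e1, e2] at h
      omega
  have k1 := key x y hx.1 hy.1 (hx.2.trans hy.2.symm)
  have k2 := key y x hy.1 hx.1 (hy.2.trans hx.2.symm)
  have k3 := key x z hx.1 hz.1 (hx.2.trans hz.2.symm)
  have k4 := key z x hz.1 hx.1 (hz.2.trans hx.2.symm)
  have k5 := key y z hy.1 hz.1 (hy.2.trans hz.2.symm)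
  have k6 := key z y hz.1 hy.1 (hz.2.trans hy.2.symm)
  have n1 : x.val ≠ y.val := fun h => hxy (Fin.ext h)
  have n2 : x.val ≠ z.val := fun h => hxz (Fin.ext h)
  have n3 : y.val ≠ z.val := fun h => hyz (Fin.ext h)
  omega

theorem card_le_mixedT {n : ℕ} (A : Set (TV n)) (h : ∀ i, (∃ x ∈ A, x.1 = i) → i ∈ mixedT A) :
    A.ncard ≤ (mixedT A).card * (n * 6) := by
  have h1 : A ⊆ ((mixedT A ×ˢ (Finset.univ : Finset (Fin n × Bool × Fin 3)) : Finset _) :
      Set (TV n)) := by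
    rintro ⟨i, j⟩ hij
    simp only [Finset.coe_product, Finset.coe_univ, Set.mem_prod, Finset.mem_coe, Set.mem_univ,
      and_true]
    exact h i ⟨_, hij, rfl⟩
  have h2 := Set.ncard_le_ncard h1 (Finset.finite_toSet _)
  rw [Set.ncard_coe_finset, Finset.card_product] at h2
  simpa using h2

theorem mixedT_compl {n : ℕ} (A : Set (TV n)) : mixedT Aᶜ = mixedT A := by
  ext i
  simp only [mixedT, Finset.mem_filter, Finset.mem_univ, true_and, Set.mem_compl_iff, not_not]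
  tauto

theorem tg_unbounded : ∀ c N : ℕ, ∃ n ≥ N, ∀ k ≤ c, ¬ CwLE (TG n) k := by
  intro c N
  refine ⟨N + 6 * c + 2, by omega, ?_⟩
  intro k hk hcw
  set n := N + 6 * c + 2 with hn
  have hcard : (Set.univ : Set (TV n)).ncard = n * (n * 6) := by
    rw [Set.ncard_univ]; simp
  obtain ⟨A, hT, h1, h2⟩ := balanced_cut (TG n) k hcw Set.univ (by rw [hcard]; nlinarith)
  rw [Set.inter_univ, hcard] at h1 h2
  have hcompl : A.ncard + Aᶜ.ncard = n * (n * 6) := by
    rw [Set.ncard_add_ncard_compl]; simp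
  have hm := mixedT_le A hT
  have hbig : n ≤ 3 * (mixedT A).card → False := by
    intro h; omega
  by_cases hfull : ∃ i, ∀ x : TV n, x.1 = i → x ∈ A
  · by_cases hempty : ∃ i, ∀ x : TV n, x.1 = i → x ∉ A
    · obtain ⟨i, hi⟩ := hfull
      obtain ⟨i', hi'⟩ := hempty
      have hT' : Types (TG n) (swapTG n ⁻¹' A) k := Types.iso _ hT
      have hm' := mixedT_le _ hT'
      have : mixedT (swapTG n ⁻¹' A) = Finset.univ := by
        ext j
        simp only [mixedT, Finset.mem_filter, Finset.mem_univ, true_and, iff_true]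
        refine ⟨⟨(j, i, false, 0), ?_, rfl⟩, (j, i', false, 0), ?_, rfl⟩
        · exact hi _ rfl
        · exact hi' _ rfl
      rw [this] at hm'
      simp at hm'
      omega
    · push Not at hempty
      have h3 : Aᶜ.ncard ≤ (mixedT Aᶜ).card * (n * 6) := by
        apply card_le_mixedT
        rintro i ⟨x, hxA, hx⟩
        rw [mixedT_compl]
        simp only [mixedT, Finset.mem_filter, Finset.mem_univ, true_and]
        obtain ⟨y, hy1, hy2⟩ := hempty i
        exact ⟨⟨y, hy2, hy1⟩, x, hxA, hx⟩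
      rw [mixedT_compl] at h3
      apply hbig
      have : n * (n * 6) ≤ 3 * ((mixedT A).card * (n * 6)) := by omega
      have : n * (n * 6) ≤ (3 * (mixedT A).card) * (n * 6) := by linarith
      exact Nat.le_of_mul_le_mul_right this (by omega)
  · push Not at hfull
    have h3 : A.ncard ≤ (mixedT A).card * (n * 6) := by
      apply card_le_mixedT
      rintro i ⟨x, hxA, hx⟩
      simp only [mixedT, Finset.mem_filter, Finset.mem_univ, true_and]
      obtain ⟨y, hy1, hy2⟩ := hfull i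
      exact ⟨⟨x, hxA, hx⟩, y, hy2, hy1⟩
    apply hbig
    have : n * (n * 6) ≤ (3 * (mixedT A).card) * (n * 6) := by linarith
    exact Nat.le_of_mul_le_mul_right this (by omega)

end Pool.Agent.L0h65.CW
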