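import Pool.Agent.L0h65.CW.Bound
import Pool.Agent.L0h65.CW.TG
import Pool.Agent.L0h65.CW.Small
import Pool.Agent.H175R2.Fam
import Pool.Agent.H175R2.Classify
import Pool.Agent.R36.CwBase

set_option autoImplicit false

/-!
# Unbounded classes
-/

namespace Pool.Agent.L0h65.CW

open Pool.Agent.H175R2

/-- a bounded class misses members of an unbounded family -/
theorem mem_of_unbounded' {W : Type} {H : SimpleGraph W} (hb : BddITM H) {V : ℕ → Type}
    [∀ n, Finite (V n)] [∀ n, Nonempty (V n)] (fam : ∀ n, SimpleGraph (V n))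
    (hu : ∀ c N : ℕ, ∃ n ≥ N, ∀ k ≤ c, ¬ CwLE (fam n) k) (N : ℕ) : ∃ n ≥ N, ITM H (fam n) := by
  obtain ⟨c, hc⟩ := hb
  obtain ⟨n, hn, hk⟩ := hu c N
  refine ⟨n, hn, ?_⟩
  by_contra hno
  exact hk _ (hc _ (fam n) hno) (Pool.Agent.R36.cwLE_cliqueWidth _)

section
variable {W : Type} {H : SimpleGraph W}

/-- four distinct neighbours survive subdivision -/
theorem deg4_sub {U : Type} {K : SimpleGraph U} (hK : IsSubdivision H K)
    (h : ∃ x a b c d, H.Adj x a ∧ H.Adj x b ∧ H.Adj x c ∧ H.Adj x d ∧ a ≠ b ∧ a ≠ c ∧ a ≠ d ∧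
      b ≠ c ∧ b ≠ d ∧ c ≠ d) :
    ∃ x a b c d, K.Adj x a ∧ K.Adj x b ∧ K.Adj x c ∧ K.Adj x d ∧ a ≠ b ∧ a ≠ c ∧ a ≠ d ∧
      b ≠ c ∧ b ≠ d ∧ c ≠ d := by
  induction hK with
  | iso e =>
    obtain ⟨x, a, b, c, d, h1, h2, h3, h4, n1, n2, n3, n4, n5, n6⟩ := h
    exact ⟨e x, e a, e b, e c, e d, e.map_adj_iff.2 h1, e.map_adj_iff.2 h2, e.map_adj_iff.2 h3,
      e.map_adj_iff.2 h4, e.injective.ne n1, e.injective.ne n2, e.injective.ne n3,
      e.injective.ne n4, e.injective.ne n5, e.injective.ne n6⟩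
  | @step U G u v huv _ ih =>
    obtain ⟨x, a, b, c, d, h1, h2, h3, h4, n1, n2, n3, n4, n5, n6⟩ := ih
    -- new neighbour in the direction of `y`
    classical
    let g : U → Option U := fun y => if (x = u ∧ y = v) ∨ (x = v ∧ y = u) then none else some y
    have hg : ∀ y, G.Adj x y → (subdivideEdge G u v).Adj (some x) (g y) := by
      intro y hy
      simp only [g]
      split_ifs with hc
      · rw [sub_some_none]
        rcases hc with h | h
        · exact Or.inl h.1
        · exact Or.inr h.1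
      · rw [sub_some_some]
        push Not at hc
        exact ⟨hy, fun h => hc.1 h.1 h.2, fun h => hc.2 h.1 h.2⟩
    have ginj : ∀ y z, G.Adj x y → G.Adj x z → y ≠ z → g y ≠ g z := by
      intro y z hy hz hne hgg
      simp only [g] at hgg
      split_ifs at hgg with c1 c2 c2
      · have hxuv : u ≠ v := huv.ne
        rcases c1 with ⟨e1, e2⟩ | ⟨e1, e2⟩ <;> rcases c2 with ⟨e3, e4⟩ | ⟨e3, e4⟩
        · exact hne (e2.trans e4.symm)
        · exact hxuv (e1.symm.trans e3)
        · exact hxuv (e3.symm.trans e1)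
        · exact hne (e2.trans e4.symm)
      · exact hne (Option.some.inj hgg)
    exact ⟨some x, g a, g b, g c, g d, hg a h1, hg b h2, hg c h3, hg d h4, ginj _ _ h1 h2 n1,
      ginj _ _ h1 h3 n2, ginj _ _ h1 h4 n3, ginj _ _ h2 h3 n4, ginj _ _ h2 h4 n5, ginj _ _ h3 h4 n6⟩

/-- an independent triple survives subdivision -/
theorem ind3_sub {U : Type} {K : SimpleGraph U} (hK : IsSubdivision H K)
    (h : ∃ x y z, x ≠ y ∧ x ≠ z ∧ y ≠ z ∧ ¬ H.Adj x y ∧ ¬ H.Adj x z ∧ ¬ H.Adj y z) :
    ∃ x y z, x ≠ y ∧ x ≠ z ∧ y ≠ z ∧ ¬ K.Adj x y ∧ ¬ K.Adj x z ∧ ¬ K.Adj y z := by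
  induction hK with
  | iso e =>
    obtain ⟨x, y, z, n1, n2, n3, h1, h2, h3⟩ := h
    refine ⟨e x, e y, e z, e.injective.ne n1, e.injective.ne n2, e.injective.ne n3, ?_, ?_, ?_⟩
    · rwa [e.map_adj_iff]
    · rwa [e.map_adj_iff]
    · rwa [e.map_adj_iff]
  | @step U G u v huv _ ih =>
    obtain ⟨x, y, z, n1, n2, n3, h1, h2, h3⟩ := ih
    refine ⟨some x, some y, some z, by simpa using n1, by simpa using n2, by simpa using n3,
      ?_, ?_, ?_⟩ <;> rw [sub_some_some]
    · exact fun h => h1 h.1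
    · exact fun h => h2 h.1
    · exact fun h => h3 h.1

/-- a set of minimum degree two avoiding the closed neighbourhood of `p` survives subdivision -/
def FarCore {U : Type} (G : SimpleGraph U) : Prop :=
  ∃ (p : U) (X : Set U), X.Nonempty ∧ p ∉ X ∧ (∀ x ∈ X, ¬ G.Adj p x) ∧
    ∀ x ∈ X, ∃ y ∈ X, ∃ z ∈ X, y ≠ z ∧ G.Adj x y ∧ G.Adj x z

theorem farCore_sub {U : Type} {K : SimpleGraph U} (hK : IsSubdivision H K) (h : FarCore H) :
    FarCore K := by
  induction hK with
  | iso e =>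
    obtain ⟨p, X, ⟨x0, hx0⟩, hp, h1, h2⟩ := h
    refine ⟨e p, e '' X, ⟨e x0, x0, hx0, rfl⟩, ?_, ?_, ?_⟩
    · rintro ⟨x, hx, hxp⟩
      exact hp (e.injective hxp ▸ hx)
    · rintro _ ⟨x, hx, rfl⟩
      rw [e.map_adj_iff]; exact h1 x hx
    · rintro _ ⟨x, hx, rfl⟩
      obtain ⟨y, hy, z, hz, hne, hxy, hxz⟩ := h2 x hx
      exact ⟨e y, ⟨y, hy, rfl⟩, e z, ⟨z, hz, rfl⟩, e.injective.ne hne, e.map_adj_iff.2 hxy,
        e.map_adj_iff.2 hxz⟩
  | @step U G u v huv _ ih =>
    obtain ⟨p, X, ⟨x0, hx0⟩, hp, h1, h2⟩ := ih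
    by_cases huvX : u ∈ X ∧ v ∈ X
    · obtain ⟨hu, hv⟩ := huvX
      refine ⟨some p, insert none (some '' X), ⟨none, by simp⟩, ?_, ?_, ?_⟩
      · simp [hp]
      · rintro x (rfl | ⟨x, hx, rfl⟩)
        · rw [sub_some_none]
          rintro (rfl | rfl)
          · exact hp hu
          · exact hp hv
        · rw [sub_some_some]
          exact fun h => h1 x hx h.1
      · rintro x (rfl | ⟨x, hx, rfl⟩)
        · refine ⟨some u, Or.inr ⟨u, hu, rfl⟩, some v, Or.inr ⟨v, hv, rfl⟩, ?_, ?_, ?_⟩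
          · intro h; exact huv.ne (Option.some.inj h)
          · rw [sub_none_some]; exact Or.inl rfl
          · rw [sub_none_some]; exact Or.inr rfl
        · obtain ⟨y, hy, z, hz, hne, hxy, hxz⟩ := h2 x hx
          classical
          let g : U → Option U := fun y =>
            if (x = u ∧ y = v) ∨ (x = v ∧ y = u) then none else some y
          have hgm : ∀ y ∈ X, g y ∈ insert none (some '' X) := by
            intro y hy
            simp only [g]
            split_ifs with hc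
            · exact Or.inl rfl
            · exact Or.inr ⟨y, hy, rfl⟩
          have hg : ∀ y, G.Adj x y → (subdivideEdge G u v).Adj (some x) (g y) := by
            intro y hy
            simp only [g]
            split_ifs with hc
            · rw [sub_some_none]
              rcases hc with h | h
              · exact Or.inl h.1
              · exact Or.inr h.1
            · rw [sub_some_some]
              push Not at hc
              exact ⟨hy, fun h => hc.1 h.1 h.2, fun h => hc.2 h.1 h.2⟩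
          refine ⟨g y, hgm y hy, g z, hgm z hz, ?_, hg y hxy, hg z hxz⟩
          intro hgg
          simp only [g] at hgg
          split_ifs at hgg with c1 c2 c2
          · have hxuv : u ≠ v := huv.ne
            rcases c1 with ⟨e1, e2⟩ | ⟨e1, e2⟩ <;> rcases c2 with ⟨e3, e4⟩ | ⟨e3, e4⟩
            · exact hne (e2.trans e4.symm)
            · exact hxuv (e1.symm.trans e3)
            · exact hxuv (e3.symm.trans e1)
            · exact hne (e2.trans e4.symm)
          · exact hne (Option.some.inj hgg)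
    · refine ⟨some p, some '' X, ⟨some x0, x0, hx0, rfl⟩, ?_, ?_, ?_⟩
      · simp [hp]
      · rintro _ ⟨x, hx, rfl⟩
        rw [sub_some_some]
        exact fun h => h1 x hx h.1
      · rintro _ ⟨x, hx, rfl⟩
        obtain ⟨y, hy, z, hz, hne, hxy, hxz⟩ := h2 x hx
        refine ⟨some y, ⟨y, hy, rfl⟩, some z, ⟨z, hz, rfl⟩, by simpa using hne, ?_, ?_⟩ <;>
          rw [sub_some_some]
        · refine ⟨hxy, ?_, ?_⟩
          · rintro ⟨rfl, rfl⟩; exact huvX ⟨hx, hy⟩
          · rintro ⟨rfl, rfl⟩; exact huvX ⟨hy, hx⟩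
        · refine ⟨hxz, ?_, ?_⟩
          · rintro ⟨rfl, rfl⟩; exact huvX ⟨hx, hz⟩
          · rintro ⟨rfl, rfl⟩; exact huvX ⟨hz, hx⟩

/-- split graphs -/
def Split {U : Type} (G : SimpleGraph U) : Prop :=
  ∃ K : Set U, (∀ x ∈ K, ∀ y ∈ K, x ≠ y → G.Adj x y) ∧ ∀ x, x ∉ K → ∀ y, y ∉ K → ¬ G.Adj x y

theorem Split.comap {U V : Type} {G : SimpleGraph U} {G' : SimpleGraph V} (f : G ↪g G')
    (h : Split G') : Split G := by
  obtain ⟨K, h1, h2⟩ := h
  refine ⟨f ⁻¹' K, ?_, ?_⟩
  · intro x hx y hy hne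
    exact f.map_adj_iff.1 (h1 _ hx _ hy (f.injective.ne hne))
  · intro x hx y hy ha
    exact h2 _ hx _ hy (f.map_adj_iff.2 ha)

theorem split_sub {U : Type} {K : SimpleGraph U} (hK : IsSubdivision H K) (h : Split K) :
    Split H := by
  induction hK with
  | iso e => exact Split.comap e.toEmbedding h
  | @step U G u v huv _ ih =>
    apply ih
    obtain ⟨C, h1, h2⟩ := h
    have hnuv : ¬ (some u ∈ C ∧ some v ∈ C) := by
      rintro ⟨hu, hv⟩
      have := h1 _ hu _ hv (by simpa using huv.ne)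
      rw [sub_some_some] at this
      exact this.2.1 ⟨rfl, rfl⟩
    have hnone : none ∈ C := by
      by_contra hn
      apply hnuv
      constructor
      · by_contra hu
        exact h2 _ hn _ hu ((sub_none_some u).2 (Or.inl rfl))
      · by_contra hv
        exact h2 _ hn _ hv ((sub_none_some v).2 (Or.inr rfl))
    -- members of `C` other than `none` are `u` or `v`
    have hC : ∀ x, some x ∈ C → x = u ∨ x = v := by
      intro x hx
      have := h1 _ hnone _ hx (by simp)
      rwa [sub_none_some] at this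
    refine ⟨{u, v}, ?_, ?_⟩
    · rintro x (rfl | rfl) y (rfl | rfl) hne
      · exact absurd rfl hne
      · exact huv
      · exact huv.symm
      · exact absurd rfl hne
    · intro x hx y hy ha
      simp only [Set.mem_insert_iff, Set.mem_singleton_iff] at hx hy
      have hxC : some x ∉ C := fun h => hx (hC x h)
      have hyC : some y ∉ C := fun h => hy (hC y h)
      apply h2 _ hxC _ hyC
      rw [sub_some_some]
      exact ⟨ha, fun h => hx (Or.inl h.1), fun h => hx (Or.inr h.1)⟩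

end

/-- labelling of a subdivision of `K₄` -/
structure Lab {U : Type} (G : SimpleGraph U) (f : Fin 4 → U) (L : U → Finset (Fin 4)) : Prop where
  inj : Function.Injective f
  lab : ∀ i, L (f i) = {i}
  same : ∀ x y, G.Adj x y → (∀ i, x ≠ f i) → (∀ i, y ≠ f i) → L x = L y
  inc : ∀ i y, G.Adj (f i) y → (∀ j, y ≠ f j) → i ∈ L y
  nb : ∀ i j, i ≠ j → ∃ y, G.Adj (f i) y ∧ (y = f j ∨ ((∀ k, y ≠ f k) ∧ L y = {i, j}))

theorem lab_sub {H : SimpleGraph (Fin 4)} (hH : H = ⊤) {U : Type} {K : SimpleGraph U}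
    (hK : IsSubdivision H K) : ∃ f L, Lab K f L := by
  classical
  induction hK with
  | @iso U G e =>
    refine ⟨e, fun x => {e.symm x}, e.injective, ?_, ?_, ?_, ?_⟩
    · intro i; simp
    · intro x y _ hx
      exact absurd (e.apply_symm_apply x).symm (hx _)
    · intro i y _ hy
      exact absurd (e.apply_symm_apply y).symm (hy _)
    · intro i j hij
      exact ⟨e j, e.map_adj_iff.2 (by rw [hH]; exact hij), Or.inl rfl⟩
  | @step U G u v huv _ ih =>
    obtain ⟨f, L, hinj, hlab, hsame, hinc, hnb⟩ := ih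
    have hne : ∀ w : U, (∀ i, (some w : Option U) ≠ some (f i)) ↔ ∀ i, w ≠ f i := by
      intro w; simp
    -- the new label
    have hnew : ∀ a b, G.Adj a b → (∀ i, a ≠ f i) → L a ∪ L b = L a := by
      intro a b hab ha
      by_cases hb : ∀ i, b ≠ f i
      · rw [hsame a b hab ha hb, Finset.union_self]
      · push Not at hb
        obtain ⟨i, rfl⟩ := hb
        have := hinc i a hab.symm ha
        rw [hlab]
        rw [Finset.union_eq_left, Finset.singleton_subset_iff]
        exact this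
    refine ⟨fun i => some (f i), fun o => o.elim (L u ∪ L v) L, ?_, ?_, ?_, ?_, ?_⟩
    · exact fun i j h => hinj (Option.some.inj h)
    · intro i; exact hlab i
    · rintro (_ | x) (_ | y) hxy hx hy
      · exact absurd rfl hxy.ne
      · rw [sub_none_some] at hxy
        rw [hne] at hy
        show L u ∪ L v = L y
        rcases hxy with rfl | rfl
        · exact hnew _ _ huv hy
        · rw [Finset.union_comm]; exact hnew _ _ huv.symm hy
      · rw [sub_some_none] at hxy
        rw [hne] at hx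
        show L x = L u ∪ L v
        rcases hxy with rfl | rfl
        · exact (hnew _ _ huv hx).symm
        · rw [Finset.union_comm]; exact (hnew _ _ huv.symm hx).symm
      · rw [sub_some_some] at hxy
        rw [hne] at hx hy
        exact hsame x y hxy.1 hx hy
    · rintro i (_ | y) hy hyf
      · rw [sub_some_none] at hy
        show i ∈ L u ∪ L v
        rw [Finset.mem_union]
        rcases hy with h | h
        · left; rw [← h, hlab]; simp
        · right; rw [← h, hlab]; simp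
      · rw [sub_some_some] at hy
        rw [hne] at hyf
        exact hinc i y hy.1 hyf
    · intro i j hij
      obtain ⟨y, hy, hy'⟩ := hnb i j hij
      have hLy : L (f i) ∪ L y = {i, j} := by
        rw [hlab]
        rcases hy' with rfl | ⟨-, h⟩
        · rw [hlab]; rfl
        · rw [h]
          ext k; simp
      by_cases hc : (f i = u ∧ y = v) ∨ (f i = v ∧ y = u)
      · refine ⟨none, ?_, Or.inr ⟨by simp, ?_⟩⟩
        · rw [sub_some_none]
          rcases hc with h | h
          · exact Or.inl h.1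
          · exact Or.inr h.1
        · show L u ∪ L v = {i, j}
          rcases hc with ⟨h1, h2⟩ | ⟨h1, h2⟩
          · rw [← h1, ← h2]; exact hLy
          · rw [← h1, ← h2, Finset.union_comm]; exact hLy
      · push Not at hc
        refine ⟨some y, ?_, ?_⟩
        · rw [sub_some_some]
          exact ⟨hy, fun h => hc.1 h.1 h.2, fun h => hc.2 h.1 h.2⟩
        · rcases hy' with h | ⟨h1, h2⟩
          · exact Or.inl (congrArg some h)
          · exact Or.inr ⟨by simpa using h1, h2⟩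

theorem fin4_third (i j k : Fin 4) (h1 : i ≠ j) (h2 : i ≠ k) (h3 : j ≠ k) :
    ∃ m, m ≠ i ∧ ∀ a, a ≠ m → a = i ∨ a = j ∨ a = k := by
  revert i j k
  decide

theorem fin4_two (m m' : Fin 4) (h : m ≠ m') :
    ∃ a b : Fin 4, a ≠ b ∧ a ≠ m ∧ a ≠ m' ∧ b ≠ m ∧ b ≠ m' := by
  revert m m'
  decide

theorem fin4_others (i : Fin 4) : ∃ a b c : Fin 4, i ≠ a ∧ i ≠ b ∧ i ≠ c ∧ a ≠ b ∧ a ≠ c ∧ b ≠ c := by
  revert i
  decide

/-- no subdivision of `K₄` in `TG n` -/
theorem no_k4 {H : SimpleGraph (Fin 4)} (hH : H = ⊤) (n : ℕ) : ¬ ITM H (TG n) := by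
  classical
  rintro ⟨U, K, hK, ⟨φ⟩⟩
  obtain ⟨f, L, hinj, hlab, hsame, hinc, hnb⟩ := lab_sub hH hK
  have : Nonempty U := ⟨f 0⟩
  have hbr : ∀ i, ∃ m, m ≠ i ∧ ∀ a b, a ≠ b → a ≠ m → b ≠ m → K.Adj (f a) (f b) := by
    intro i
    obtain ⟨a, b, c, n1, n2, n3, n4, n5, n6⟩ := fin4_others i
    have hy : ∀ j, i ≠ j → ∃ y, K.Adj (f i) y ∧ (y = f j ∨ ((∀ k, y ≠ f k) ∧ L y = {i, j})) := hnb i
    choose! g hg1 hg2 using hy
    -- labels of the neighbours
    have hj : ∀ j, i ≠ j → j ∈ L (g j) ∧ ∀ k, k ≠ i → k ≠ j → k ∉ L (g j) := by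
      intro j hij
      rcases hg2 j hij with h | ⟨-, h⟩
      · rw [h, hlab]
        exact ⟨by simp, fun k _ hk => by simpa using hk⟩
      · rw [h]
        refine ⟨by simp, fun k hk1 hk2 => by simp [hk1, hk2]⟩
    have hgne : ∀ j k, i ≠ j → i ≠ k → j ≠ k → g j ≠ g k := by
      intro j k hij hik hjk h
      have := (hj j hij).1
      rw [h] at this
      exact (hj k hik).2 j (Ne.symm hij) hjk this
    have hadj : ∀ j k, i ≠ j → i ≠ k → j ≠ k → K.Adj (g j) (g k) → g j = f j ∧ g k = f k := by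
      intro j k hij hik hjk ha
      rcases hg2 j hij with h | ⟨hb, h⟩ <;> rcases hg2 k hik with h' | ⟨hb', h'⟩
      · exact ⟨h, h'⟩
      · exfalso
        rw [h] at ha
        have := hinc j _ ha hb'
        exact (hj k hik).2 j (Ne.symm hij) hjk this
      · exfalso
        rw [h'] at ha
        have := hinc k _ ha.symm hb
        exact (hj j hij).2 k (Ne.symm hik) (Ne.symm hjk) this
      · exfalso
        have := hsame _ _ ha hb hb'
        have h2 := (hj j hij).1
        rw [this] at h2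
        exact (hj k hik).2 j (Ne.symm hij) hjk h2
    have main : ∀ j k, i ≠ j → i ≠ k → j ≠ k → K.Adj (g j) (g k) →
        ∃ m, m ≠ i ∧ ∀ a b, a ≠ b → a ≠ m → b ≠ m → K.Adj (f a) (f b) := by
      intro j k hij hik hjk ha
      obtain ⟨e1, e2⟩ := hadj j k hij hik hjk ha
      have a1 : K.Adj (f i) (f j) := by rw [← e1]; exact hg1 j hij
      have a2 : K.Adj (f i) (f k) := by rw [← e2]; exact hg1 k hik
      have a3 : K.Adj (f j) (f k) := by rw [← e1, ← e2]; exact ha
      obtain ⟨m, hm, hall⟩ := fin4_third i j k hij hik hjk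
      refine ⟨m, hm, ?_⟩
      intro a b hab ha' hb'
      rcases hall a ha' with rfl | rfl | rfl <;> rcases hall b hb' with rfl | rfl | rfl
      · exact absurd rfl hab
      · exact a1
      · exact a2
      · exact a1.symm
      · exact absurd rfl hab
      · exact a3
      · exact a2.symm
      · exact a3.symm
      · exact absurd rfl hab
    have hcl := tg_claw (n := n) (φ.map_adj_iff.2 (hg1 a n1)) (φ.map_adj_iff.2 (hg1 b n2))
      (φ.map_adj_iff.2 (hg1 c n3)) (φ.injective.ne (hgne a b n1 n2 n4))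
      (φ.injective.ne (hgne a c n1 n3 n5)) (φ.injective.ne (hgne b c n2 n3 n6))
    rw [φ.map_adj_iff, φ.map_adj_iff, φ.map_adj_iff] at hcl
    rcases hcl with h | h | h
    · exact main a b n1 n2 n4 h
    · exact main a c n1 n3 n5 h
    · exact main b c n2 n3 n6 h
  obtain ⟨m, -, hm⟩ := hbr 0
  obtain ⟨m', hm', hm2⟩ := hbr m
  obtain ⟨a, b, hab, h1, h2, h3, h4⟩ := fin4_two m m' (Ne.symm hm')
  -- triangles `a b m'` and `a b m`
  have k1 := hm a b hab h1 h3
  have k2 := hm a m' h2 h1 hm'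
  have k3 := hm b m' h4 h3 hm'
  have k4 := hm2 a m h1 h2 (Ne.symm hm')
  have k5 := hm2 b m h3 h4 (Ne.symm hm')
  exact tg_two_tri (φ.map_adj_iff.2 k1) (φ.map_adj_iff.2 k2) (φ.map_adj_iff.2 k3)
    (φ.map_adj_iff.2 k4) (φ.map_adj_iff.2 k5) (φ.injective.ne (hinj.ne hm'))

theorem necessity {W : Type} [Finite W] (H : SimpleGraph W) (hb : BddITM H) :
    H.IsIndContained (SimpleGraph.pathGraph 4) ∨ H.IsIndContained paw ∨ H.IsIndContained diamond := by
  classical
  have hne : ∀ n : ℕ, Nonempty {p : Fin (n + 2) × Fin (n + 2) // p.1 ≠ p.2} := fun n =>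
    ⟨⟨(⟨0, by omega⟩, ⟨1, by omega⟩), by simp⟩⟩
  obtain ⟨n1, -, U1, K1, hK1, ⟨φ1⟩⟩ := mem_of_unbounded' hb (V := fun n => TV (n + 1))
    (fun n => TG (n + 1)) (by
      intro c N
      obtain ⟨n, hn, hk⟩ := tg_unbounded c (N + 1)
      exact ⟨n - 1, by omega, by rwa [Nat.sub_add_cancel (by omega)]⟩) 0
  obtain ⟨n2, -, U2, K2, hK2, ⟨φ2⟩⟩ := mem_of_unbounded' hb
    (V := fun n => Fin (n + 1) ⊕ (Fin (n + 1) × Fin (n + 1))) (fun n => famCobip (n + 1)) (by
      intro c N
      obtain ⟨n, hn, hk⟩ := famCobip_unbounded c (N + 1)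
      exact ⟨n - 1, by omega, by rwa [Nat.sub_add_cancel (by omega)]⟩) 0
  obtain ⟨n3, -, U3, K3, hK3, ⟨φ3⟩⟩ := mem_of_unbounded' hb
    (V := fun n => Fin (n + 1) ⊕ (Fin (n + 1) × Fin (n + 1))) (fun n => famSplit (n + 1)) (by
      intro c N
      obtain ⟨n, hn, hk⟩ := famSplit_unbounded c (N + 1)
      exact ⟨n - 1, by omega, by rwa [Nat.sub_add_cancel (by omega)]⟩) 0
  obtain ⟨n4, -, U4, K4, hK4, ⟨φ4⟩⟩ := mem_of_unbounded' hb
    (V := fun n => {p : Fin (n + 2) × Fin (n + 2) // p.1 ≠ p.2})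
    (fun n => famTrunc (n + 2)) (by
      intro c N
      obtain ⟨n, hn, hk⟩ := famTrunc_unbounded c (N + 2)
      exact ⟨n - 2, by omega, by rwa [Nat.sub_add_cancel (by omega)]⟩) 0
  apply classify H
  · intro x a b c d h1 h2 h3 h4 m1 m2 m3 m4 m5 m6
    obtain ⟨x', a', b', c', d', g1, g2, g3, g4, l1, l2, l3, l4, l5, l6⟩ := deg4_sub hK1
      ⟨x, a, b, c, d, h1, h2, h3, h4, m1, m2, m3, m4, m5, m6⟩
    exact tg_degree (φ1.map_adj_iff.2 g1) (φ1.map_adj_iff.2 g2) (φ1.map_adj_iff.2 g3)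
      (φ1.map_adj_iff.2 g4) (φ1.injective.ne l1) (φ1.injective.ne l2) (φ1.injective.ne l3)
      (φ1.injective.ne l4) (φ1.injective.ne l5) (φ1.injective.ne l6)
  · intro x y z m1 m2 m3
    by_contra hcon
    push Not at hcon
    obtain ⟨x', y', z', l1, l2, l3, g1, g2, g3⟩ := ind3_sub hK2
      ⟨x, y, z, m1, m2, m3, hcon.1, hcon.2.1, hcon.2.2⟩
    rw [← φ2.map_adj_iff] at g1 g2 g3
    have l1 := φ2.injective.ne l1
    have l2 := φ2.injective.ne l2
    have l3 := φ2.injective.ne l3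
    have key : ∀ s t : Fin (n2 + 1) ⊕ (Fin (n2 + 1) × Fin (n2 + 1)), s ≠ t →
        ¬ (famCobip (n2 + 1)).Adj s t → s.isLeft ≠ t.isLeft := by
      rintro (s | s) (t | t) hst hna <;> simp
      · apply hna
        unfold famCobip
        rw [SimpleGraph.fromRel_adj]
        exact ⟨hst, Or.inl (Or.inl ⟨s, t, rfl, rfl⟩)⟩
      · apply hna
        unfold famCobip
        rw [SimpleGraph.fromRel_adj]
        exact ⟨hst, Or.inl (Or.inr (Or.inl ⟨s, t, rfl, rfl⟩))⟩
    have q1 := key _ _ l1 g1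
    have q2 := key _ _ l2 g2
    have q3 := key _ _ l3 g3
    revert q1 q2 q3
    generalize (φ2 x').isLeft = a
    generalize (φ2 y').isLeft = b
    generalize (φ2 z').isLeft = c
    revert a b c
    decide
  · apply split_sub hK3
    refine Split.comap φ3 ⟨Set.range Sum.inl, ?_, ?_⟩
    · rintro _ ⟨a, rfl⟩ _ ⟨b, rfl⟩ hne
      unfold famSplit
      rw [SimpleGraph.fromRel_adj]
      exact ⟨hne, Or.inl (Or.inl ⟨a, b, rfl, rfl⟩)⟩
    · rintro (x | x) hx (y | y) hy ha
      · exact hx ⟨x, rfl⟩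
      · exact hx ⟨x, rfl⟩
      · exact hy ⟨y, rfl⟩
      · unfold famSplit at ha
        rw [SimpleGraph.fromRel_adj] at ha
        simp at ha
  · intro p x y z hxy hxz hyz hpx hpy hpz
    by_contra hcon
    push Not at hcon
    obtain ⟨q, X, ⟨x0, hx0⟩, hq, h1, h2⟩ := farCore_sub hK4
      (⟨p, {x, y, z}, ⟨x, by simp⟩, by simp [hpx, hpy, hpz], by
          rintro w (rfl | rfl | rfl)
          · exact hcon.1
          · exact hcon.2.1
          · exact hcon.2.2, by
          rintro w (rfl | rfl | rfl)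
          · exact ⟨y, by simp, z, by simp, hyz.ne, hxy, hxz⟩
          · exact ⟨x, by simp, z, by simp, hxz.ne, hxy.symm, hyz⟩
          · exact ⟨x, by simp, y, by simp, hxy.ne, hxz.symm, hyz.symm⟩⟩ : FarCore H)
    -- in `famTrunc` the non-neighbours of a vertex form a star
    have key : ∀ w ∈ X, (φ4 w).1.1 = (φ4 q).1.1 ∨ φ4 w = ⟨((φ4 q).1.2, (φ4 q).1.1), (φ4 q).2.symm⟩ := by
      intro w hw
      have h3 := h1 w hw
      rw [← φ4.map_adj_iff, trunc_adj] at h3
      have hne : φ4 q ≠ φ4 w := φ4.injective.ne (fun h => hq (h ▸ hw))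
      have h4 : (φ4 q).1.1 = (φ4 w).1.1 ∨ (φ4 q).1.1 = (φ4 w).1.2 ∧ (φ4 q).1.2 = (φ4 w).1.1 := by
        by_contra hc
        exact h3 ⟨hne, hc⟩
      rcases h4 with h4 | ⟨h4, h5⟩
      · exact Or.inl h4.symm
      · right
        apply Subtype.ext
        exact Prod.ext h5.symm h4.symm
    have key2 : ∀ w ∈ X, (φ4 w).1.1 = (φ4 q).1.1 → False := by
      intro w hw hwq
      obtain ⟨y', hy', z', hz', hne, hwy, hwz⟩ := h2 w hw
      have hh : ∀ t ∈ X, K4.Adj w t → φ4 t = ⟨((φ4 q).1.2, (φ4 q).1.1), (φ4 q).2.symm⟩ := by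
        intro t ht hwt
        rcases key t ht with h | h
        · exfalso
          rw [← φ4.map_adj_iff, trunc_adj] at hwt
          exact hwt.2 (Or.inl (hwq.trans h.symm))
        · exact h
      exact hne (φ4.injective ((hh y' hy' hwy).trans (hh z' hz' hwz).symm))
    obtain ⟨y', hy', z', hz', hne, hwy, hwz⟩ := h2 x0 hx0
    rcases key x0 hx0 with h | h
    · exact key2 x0 hx0 h
    · rcases key y' hy' with h' | h'
      · exact key2 y' hy' h'
      · exact hwy.ne (φ4.injective (h.trans h'.symm))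
  · rintro ⟨e⟩
    refine no_k4 (H := (⊤ : SimpleGraph (Fin 4))) rfl (n1 + 1) ?_
    exact ITM.mono_left ⟨U1, K1, hK1, ⟨φ1⟩⟩ ⟨e.symm.toEmbedding⟩

end Pool.Agent.L0h65.CW
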