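import Pool.Agent.L0h65.CW.Struct

set_option autoImplicit false

/-!
# Structure of 2-connected graphs without a subdivision of the paw
-/

namespace Pool.Agent.L0h65.CW

open Pool.Agent.H175R2 Finset Classical

variable {V : Type} {G : SimpleGraph V}

theorem paw_of_cycle {c : ℕ → V} {n : ℕ} (h : IndCycle G c n) {v : V} (hv : ∀ i < n, v ≠ c i)
    {k : ℕ} (hk : k < n) (h0 : G.Adj v (c k)) (h1 : ∀ i < n, i ≠ k → ¬ G.Adj v (c i)) :
    ITM paw G := by
  apply paw_of_cycle_zero (h.rot k hk) (v := v)
  · intro i hi
    obtain ⟨j, hj, e⟩ := rot_mem (c := c) hk hi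
    rw [e]; exact hv j hj
  · rw [rot_zero hk]; exact h0
  · intro i hi hi0
    obtain ⟨j, hj, e⟩ := rot_mem (c := c) hk hi
    rw [e]
    apply h1 j hj
    rintro rfl
    rw [← rot_zero (c := c) hk] at e
    have := (h.rot j hk).inj _ hi _ (by omega) e
    omega

/-- `G` has no triangle -/
def NoTri (G : SimpleGraph V) : Prop := ∀ x y z, G.Adj x y → G.Adj y z → ¬ G.Adj x z

theorem paw_arc (hT : NoTri G) {c : ℕ → V} {n : ℕ} (h : IndCycle G c n) {v : V}
    (hv : ∀ i < n, v ≠ c i) {k : ℕ} (hk0 : 0 < k) (hk : k + 3 ≤ n) (h0 : G.Adj v (c 0))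
    (h1 : G.Adj v (c k)) (hn : ∀ i, 0 < i → i < k → ¬ G.Adj v (c i)) : ITM paw G := by
  have hp : IndPath G c k := by
    refine ⟨fun i hi j hj hij => h.inj i (by omega) j (by omega) hij, fun i hi j hj => ?_⟩
    rw [h.adj' (by omega) (by omega)]; omega
  have hc := cycle_of_path hp (by omega) (fun i hi => hv i (by omega)) h0 h1 hn
  have hu : G.Adj (c k) (c (k + 1)) := (h.adj' (by omega) (by omega)).2 (by omega)
  refine paw_of_cycle hc (v := c (k + 1)) ?_ (k := k + 1) (by omega) ?_ ?_
  · intro i hi
    split_ifs with e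
    · exact (hv _ (by omega)).symm
    · intro e'
      have := h.inj _ (by omega) _ (by omega) e'
      omega
  · rw [if_neg (by omega)]
    exact hu.symm
  · intro i hi hik
    split_ifs with e
    · exact fun ha => hT _ _ _ h1 hu ha.symm
    · rw [h.adj' (by omega) (by omega)]; omega

variable [Fintype V]

theorem two_conn_paw (h2 : TwoConn G) (hG : ¬ ITM paw G) :
    P4Free G univ ∨ ∀ x, ((univ : Finset V).filter (fun y => G.Adj x y)).card ≤ 2 := by
  have nopaw : ∀ w x y v, G.Adj w x → G.Adj w y → G.Adj x y → G.Adj w v → v ≠ x → v ≠ y →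
      ¬ G.Adj v x → G.Adj v y := by
    intro w x y v h1 h2 h3 h4 h5 h6 h7
    by_contra h8
    exact hG (itmon_paw h1 h2 h3 h4 h7 h8 h5 h6).itm
  by_cases hT : NoTri G
  · by_cases h5 : ∃ c n, IndCycle G c n ∧ 5 ≤ n
    · obtain ⟨c, n, hc, hn5⟩ := h5
      right
      apply deg_two_of_cover hc
      by_contra hcov
      obtain ⟨q, m, hq, hqc, i, hi, j, hj, hij, ha1, -⟩ := TwoConn.attach h2 hc hcov
      -- rotate
      have hr := hc.rot i hi
      set d := rot c n i with hd
      set v := q 0 with hv
      have hvd : ∀ x < n, v ≠ d x := by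
        intro x hx
        obtain ⟨z, hz, e⟩ := rot_mem (c := c) hi hx
        rw [hd, e]; exact hqc 0 (by omega) z hz
      have h0 : G.Adj v (d 0) := by rw [hd, rot_zero hi]; exact ha1
      have hex : ∃ k, 0 < k ∧ k < n ∧ G.Adj v (d k) := by
        by_contra hc'
        push Not at hc'
        exact hG (paw_of_cycle_zero hr hvd h0 (fun k hk hk0 => hc' k hk0 hk))
      obtain ⟨hk0, hkn, hk⟩ := Nat.find_spec hex
      have hmin := fun m => Nat.find_min hex (m := m)
      set k := Nat.find hex
      have hmin' : ∀ i, 0 < i → i < k → ¬ G.Adj v (d i) := fun i hi1 hi2 hai =>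
        hmin i hi2 ⟨hi1, by omega, hai⟩
      by_cases hk3 : k + 3 ≤ n
      · exact hG (paw_arc hT hr hvd hk0 hk3 h0 hk hmin')
      · -- k = n - 2
        have hkn1 : k ≠ n - 1 := by
          intro e
          rw [e] at hk
          exact hT _ _ _ h0 ((hr.adj' (by omega) (by omega)).2 (by omega)) hk
        have hk2 : k = n - 2 := by omega
        have hr' := hr.rot (n - 2) (by omega)
        refine hG (paw_arc (k := 2) hT hr' (v := v) ?_ (by omega) (by omega) ?_ ?_ ?_)
        · intro x hx
          obtain ⟨z, hz, e⟩ := rot_mem (c := d) (k := n - 2) (by omega) hx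
          rw [e]; exact hvd z hz
        · rw [rot_zero (by omega), ← hk2]; exact hk
        · unfold rot
          rw [if_neg (by omega)]
          rwa [show 2 + (n - 2) - n = 0 by omega]
        · intro x hx1 hx2
          have : x = 1 := by omega
          subst this
          unfold rot
          rw [if_pos (by omega), show 1 + (n - 2) = n - 1 by omega]
          intro ha
          exact hT _ _ _ h0 ((hr.adj' (by omega) (by omega)).2 (by omega)) ha
    · left
      push Not at h5
      intro a _ b _ c _ d _ hac had hbd hab hbc hcd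
      by_contra hcon
      push Not at hcon
      obtain ⟨n1, n2, n3⟩ := hcon
      obtain ⟨p, r, hp, h0, hr, hpb⟩ := exists_indPath (h2.del b) (x := a) (y := c)
        (mem_erase.2 ⟨hab.ne, mem_univ _⟩) (mem_erase.2 ⟨hbc.ne.symm, mem_univ _⟩)
      have hpb' : ∀ i ≤ r, b ≠ p i := fun i hi e => (mem_erase.1 (hpb i hi)).1 e.symm
      have hr2 : 2 ≤ r := by
        by_contra hc
        rcases Nat.eq_zero_or_pos r with h | h
        · subst h; exact hac (h0.symm.trans hr)
        · have : r = 1 := by omega
          subst this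
          have := (hp.2 0 (by omega) 1 (by omega)).2 (by omega)
          rw [h0, hr] at this
          exact n1 this
      obtain ⟨t, t1, t2, t3, t4, t5⟩ := exists_cycle hp (s := 0) (by omega) hpb'
        (by rw [h0]; exact hab.symm) (by rw [hr]; exact hbc)
      have ht1 : t ≠ 1 := by
        rintro rfl
        have h01 := (hp.2 0 (by omega) 1 (by omega)).2 (by omega)
        rw [h0] at h01
        exact hT _ _ _ hab t3 h01
      have ht2 : t = 2 := by
        have := h5 _ _ t5
        omega
      subst ht2
      have e12 := (hp.2 1 (by omega) 2 (by omega)).2 (by omega)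
      by_cases hrr : r = 2
      · subst hrr
        -- the vertex d
        rw [hr] at e12
        apply hG
        refine paw_of_cycle t5 (v := d) ?_ (k := 3) (by omega) ?_ ?_
        · intro i hi
          have hi' : i = 0 ∨ i = 1 ∨ i = 2 ∨ i = 3 := by omega
          rcases hi' with rfl | rfl | rfl | rfl
          · exact hbd.symm
          · show d ≠ p 0
            rw [h0]; exact had.symm
          · show d ≠ p 1
            rintro rfl
            have h01 := (hp.2 0 (by omega) 1 (by omega)).2 (by omega)
            rw [h0] at h01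
            exact n2 h01
          · show d ≠ p 2
            rw [hr]; exact hcd.ne.symm
        · show G.Adj d (p 2)
          rw [hr]; exact hcd.symm
        · intro i hi hi3
          have hi' : i = 0 ∨ i = 1 ∨ i = 2 := by omega
          rcases hi' with rfl | rfl | rfl
          · exact fun h => n3 h.symm
          · show ¬ G.Adj d (p 0)
            rw [h0]; exact fun h => n2 h.symm
          · show ¬ G.Adj d (p 1)
            exact fun h => hT _ _ _ e12 hcd h.symm
      · -- the vertex p 3
        have e23 := (hp.2 2 (by omega) 3 (by omega)).2 (by omega)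
        apply hG
        refine paw_of_cycle t5 (v := p 3) ?_ (k := 3) (by omega) ?_ ?_
        · intro i hi
          have hi' : i = 0 ∨ i = 1 ∨ i = 2 ∨ i = 3 := by omega
          rcases hi' with rfl | rfl | rfl | rfl
          · exact (hpb' 3 (by omega)).symm
          · show p 3 ≠ p 0
            intro e
            have := hp.1 _ (by omega) _ (by omega) e
            omega
          · show p 3 ≠ p 1
            intro e
            have := hp.1 _ (by omega) _ (by omega) e
            omega
          · show p 3 ≠ p 2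
            exact e23.ne.symm
        · exact e23.symm
        · intro i hi hi3
          have hi' : i = 0 ∨ i = 1 ∨ i = 2 := by omega
          rcases hi' with rfl | rfl | rfl
          · show ¬ G.Adj (p 3) b
            exact fun h => hT _ _ _ t3 e23 h.symm
          · show ¬ G.Adj (p 3) (p 0)
            rw [hp.2 _ (by omega) _ (by omega)]; omega
          · show ¬ G.Adj (p 3) (p 1)
            rw [hp.2 _ (by omega) _ (by omega)]; omega
  · -- there is a triangle
    left
    unfold NoTri at hT
    push Not at hT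
    obtain ⟨x0, y0, z0, e1, e2, e3⟩ := hT
    have step : ∀ x v, (∃ y z, G.Adj x y ∧ G.Adj x z ∧ G.Adj y z) → G.Adj v x →
        ∃ y, G.Adj x y ∧ G.Adj v y := by
      rintro x v ⟨y, z, h1, h2, h3⟩ hv
      by_cases hvy : v = y
      · subst hvy; exact ⟨z, h2, h3⟩
      · by_cases hvz : v = z
        · subst hvz; exact ⟨y, h1, h3.symm⟩
        · by_cases hay : G.Adj v y
          · exact ⟨y, h1, hay⟩
          · exact ⟨z, h2, nopaw x y z v h1 h2 h3 hv.symm hvy hvz hay⟩
    have hall : ∀ x, ∃ y z, G.Adj x y ∧ G.Adj x z ∧ G.Adj y z := by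
      by_contra hcon
      push Not at hcon
      obtain ⟨x1, hx1⟩ := hcon
      let T : Finset V := univ.filter (fun x => ∃ y z, G.Adj x y ∧ G.Adj x z ∧ G.Adj y z)
      obtain ⟨x, hx, y, hy, hxy⟩ := h2.conn.2 T (subset_univ _)
        ⟨x0, mem_filter.2 ⟨mem_univ _, y0, z0, e1, e3, e2⟩⟩
        ⟨x1, mem_sdiff.2 ⟨mem_univ _, fun h => by
          obtain ⟨y, z, h1, h2, h3⟩ := (mem_filter.1 h).2
          exact hx1 y z h1 h2 h3⟩⟩
      obtain ⟨w, hw1, hw2⟩ := step x y (mem_filter.1 hx).2 hxy.symm
      exact (mem_sdiff.1 hy).2 (mem_filter.2 ⟨mem_univ _, x, w, hxy.symm, hw2, hw1⟩)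
    have hedge : ∀ x v, G.Adj v x → ∃ y, G.Adj x y ∧ G.Adj v y := fun x v h => step x v (hall x) h
    have noco : ∀ u w v, G.Adj u w → v ≠ u → v ≠ w → ¬ G.Adj v u → ¬ G.Adj v w → False := by
      intro u w v huw hvu hvw nu nw
      let S : Finset V := univ.filter (fun x => x ≠ u ∧ x ≠ w ∧ ¬ G.Adj x u ∧ ¬ G.Adj x w)
      obtain ⟨x, hx, y, hy, hxy⟩ := h2.conn.2 S (subset_univ _)
        ⟨v, mem_filter.2 ⟨mem_univ _, hvu, hvw, nu, nw⟩⟩
        ⟨u, mem_sdiff.2 ⟨mem_univ _, fun h => (mem_filter.1 h).2.1 rfl⟩⟩
      obtain ⟨-, hxu, hxw, nxu, nxw⟩ := mem_filter.1 hx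
      have hyu : y ≠ u := by rintro rfl; exact nxu hxy
      have hyw : y ≠ w := by rintro rfl; exact nxw hxy
      have hy' : G.Adj y u ∨ G.Adj y w := by
        by_contra hcon
        push Not at hcon
        exact (mem_sdiff.1 hy).2 (mem_filter.2 ⟨mem_univ _, hyu, hyw, hcon.1, hcon.2⟩)
      have main : ∀ u w, G.Adj u w → x ≠ u → x ≠ w → ¬ G.Adj x u → ¬ G.Adj x w → y ≠ u → y ≠ w →
          G.Adj y u → False := by
        intro u w huw hxu hxw nxu nxw hyu hyw hyau
        by_cases hyaw : G.Adj y w
        · exact nxw (nopaw y u w x hyau hyaw huw hxy.symm hxu hxw nxu)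
        · obtain ⟨q, hq1, hq2⟩ := hedge w u huw
          -- q adjacent to w and u
          have hyq : y ≠ q := by rintro rfl; exact hyaw hq1.symm
          have hyaq : G.Adj y q := nopaw u w q y huw hq2 hq1 hyau.symm hyw hyq hyaw
          have hxq : x ≠ q := by rintro rfl; exact nxu hq2.symm
          have hxaq : G.Adj x q := nopaw y u q x hyau hyaq hq2 hxy.symm hxu hxq nxu
          exact nxw (nopaw q u w x hq2.symm hq1.symm huw hxaq.symm hxu hxw nxu)
      rcases hy' with h | h
      · exact main u w huw hxu hxw nxu nxw hyu hyw h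
      · exact main w u huw.symm hxw hxu nxw nxu hyw hyu h
    intro a _ b _ c _ d _ hac had hbd hab hbc hcd
    by_contra hcon
    push Not at hcon
    exact noco c d a hcd hac had hcon.1 hcon.2.1

end Pool.Agent.L0h65.CW
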