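import Pool.Agent.L0h65.CW.Hole
import Pool.Agent.H175R2.Blocks
import Pool.Agent.H175R2.Quot

set_option autoImplicit false

/-!
# Structure of 2-connected graphs without a subdivision of the diamond or of the paw
-/

namespace Pool.Agent.L0h65.CW

open Pool.Agent.H175R2 Finset Classical

variable {V : Type} {G : SimpleGraph V}

/-- Shortest paths are induced. -/
theorem exists_indPath {D : Finset V} (hD : Cn G D) {x y : V} (hx : x ∈ D) (hy : y ∈ D) :
    ∃ (p : ℕ → V) (r : ℕ), IndPath G p r ∧ p 0 = x ∧ p r = y ∧ ∀ i ≤ r, p i ∈ D := by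
  rw [cn_iff_induce] at hD
  obtain ⟨w, hw⟩ := hD.exists_walk_length_eq_dist ⟨x, hx⟩ ⟨y, hy⟩
  set r := w.length with hr
  have hdist : ∀ i ≤ r, (G.induce (D : Set V)).dist ⟨x, hx⟩ (w.getVert i) = i := by
    intro i hi
    have h1 := SimpleGraph.dist_le (w.take i)
    have h2 := SimpleGraph.dist_le (w.drop i)
    rw [SimpleGraph.Walk.take_length] at h1
    rw [SimpleGraph.Walk.drop_length] at h2
    have h3 := hD.dist_triangle (u := ⟨x, hx⟩) (v := w.getVert i) (w := ⟨y, hy⟩)
    omega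
  refine ⟨fun i => (w.getVert i).1, r, ⟨?_, ?_⟩, ?_, ?_, ?_⟩
  · intro i hi j hj hij
    have := Subtype.ext hij
    rw [← hdist i hi, ← hdist j hj, this]
  · intro i hi j hj
    have key : ∀ i ≤ r, ∀ j ≤ r, G.Adj (w.getVert i).1 (w.getVert j).1 → j ≤ i + 1 := by
      intro i hi j hj ha
      have ha' : (G.induce (D : Set V)).Adj (w.getVert i) (w.getVert j) := ha
      have h3 := hD.dist_triangle (u := ⟨x, hx⟩) (v := w.getVert i) (w := w.getVert j)
      rw [SimpleGraph.dist_eq_one_iff_adj.2 ha', hdist i hi, hdist j hj] at h3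
      exact h3
    constructor
    · intro ha
      have h1 := key i hi j hj ha
      have h2 := key j hj i hi ha.symm
      have h3 : i ≠ j := by rintro rfl; exact absurd rfl ha.ne
      omega
    · rintro (rfl | rfl)
      · have : (G.induce (D : Set V)).Adj _ _ := w.adj_getVert_succ (i := i) (by omega)
        exact this
      · have : (G.induce (D : Set V)).Adj _ _ := w.adj_getVert_succ (i := j) (by omega)
        exact this.symm
  · simp
  · simp [hr]
  · intro i hi
    exact (w.getVert i).2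

/-- An induced path closed by a vertex. -/
theorem cycle_of_path {p : ℕ → V} {r : ℕ} (hp : IndPath G p r) (hr : 1 ≤ r) {a : V}
    (ha : ∀ i ≤ r, a ≠ p i) (h0 : G.Adj a (p 0)) (h1 : G.Adj a (p r))
    (hn : ∀ i, 0 < i → i < r → ¬ G.Adj a (p i)) :
    IndCycle G (fun i => if i = 0 then a else p (i - 1)) (r + 2) := by
  refine ⟨by omega, ?_, ?_⟩
  · intro i hi j hj hij
    split_ifs at hij with e1 e2 e2
    · omega
    · exact absurd hij (ha _ (by omega))
    · exact absurd hij.symm (ha _ (by omega))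
    · have := hp.1 _ (by omega) _ (by omega) hij; omega
  · intro i hi j hj hij
    split_ifs with e1 e2 e2
    · omega
    · subst e1
      constructor
      · intro h
        by_contra hc
        exact hn (j - 1) (by omega) (by omega) h
      · rintro (h | ⟨-, h⟩)
        · rw [show j - 1 = 0 by omega]; exact h0
        · rw [show j - 1 = r by omega]; exact h1
    · omega
    · rw [hp.2 (i - 1) (by omega) (j - 1) (by omega)]; omega

/-- the least index at which `a` is adjacent to the path after index `s` gives a cycle -/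
theorem exists_cycle {p : ℕ → V} {r : ℕ} (hp : IndPath G p r) {s : ℕ} (hs : s < r) {a : V}
    (ha : ∀ i ≤ r, a ≠ p i) (h0 : G.Adj a (p s)) (h1 : G.Adj a (p r)) :
    ∃ t, s < t ∧ t ≤ r ∧ G.Adj a (p t) ∧ (∀ i, s < i → i < t → ¬ G.Adj a (p i)) ∧
      IndCycle G (fun i => if i = 0 then a else p (s + (i - 1))) (t - s + 2) := by
  have hex : ∃ t, s < t ∧ t ≤ r ∧ G.Adj a (p t) := ⟨r, hs, le_refl _, h1⟩
  obtain ⟨h2, h3, h4⟩ := Nat.find_spec hex
  have hmin := fun m => Nat.find_min hex (m := m)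
  set t := Nat.find hex
  have hn : ∀ i, s < i → i < t → ¬ G.Adj a (p i) := fun i hi1 hi2 hai =>
    hmin i hi2 ⟨hi1, by omega, hai⟩
  refine ⟨t, h2, h3, h4, hn, ?_⟩
  apply cycle_of_path (p := fun i => p (s + i)) (r := t - s)
  · refine ⟨fun i hi j hj hij => ?_, fun i hi j hj => ?_⟩
    · have := hp.1 (s + i) (by omega) (s + j) (by omega) hij; omega
    · rw [hp.2 (s + i) (by omega) (s + j) (by omega)]; omega
  · omega
  · intro i hi; exact ha _ (by omega)
  · exact h0
  · rw [show s + (t - s) = t by omega]; exact h4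
  · intro i hi1 hi2
    exact hn _ (by omega) (by omega)

variable [Fintype V]

theorem deg_two_of_cover {c : ℕ → V} {n : ℕ} (h : IndCycle G c n) (hcov : ∀ x, ∃ i < n, x = c i)
    (x : V) : ((univ : Finset V).filter (fun y => G.Adj x y)).card ≤ 2 := by
  obtain ⟨i, hi, rfl⟩ := hcov x
  have h3 := h.h3
  have : (univ : Finset V).filter (fun y => G.Adj (c i) y) ⊆
      {c (if i = 0 then n - 1 else i - 1), c (if i + 1 = n then 0 else i + 1)} := by
    intro y hy
    simp only [mem_filter, mem_univ, true_and] at hy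
    obtain ⟨j, hj, rfl⟩ := hcov y
    rw [h.adj' hi hj] at hy
    rw [mem_insert, mem_singleton]
    rcases hy with hy | hy | hy | hy
    · right; rw [if_neg (by omega)]; rw [hy]
    · left; rw [if_neg (by omega)]; rw [show i - 1 = j by omega]
    · left; rw [if_pos (by omega)]; rw [show n - 1 = j by omega]
    · right; rw [if_pos (by omega)]; rw [hy.1]
  exact (card_le_card this).trans card_le_two

/-- The vertices outside a cycle of a 2-connected graph: a connected set attached to two different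
vertices of the cycle. -/
theorem TwoConn.attach (h2 : TwoConn G) {c : ℕ → V} {n : ℕ} (h : IndCycle G c n)
    (hcov : ¬ ∀ x, ∃ i < n, x = c i) :
    ∃ (q : ℕ → V) (m : ℕ), IndPath G q m ∧ (∀ i ≤ m, ∀ j < n, q i ≠ c j) ∧ ∃ i < n, ∃ j < n, i ≠ j ∧
      G.Adj (q 0) (c i) ∧ G.Adj (q m) (c j) := by
  have h3 := h.h3
  push Not at hcov
  obtain ⟨z, hz⟩ := hcov
  set C : Finset V := (range n).image c with hC
  have hmC : ∀ x, x ∈ C ↔ ∃ i < n, x = c i := by
    intro x
    simp only [hC, mem_image, mem_range]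
    constructor
    · rintro ⟨i, hi, rfl⟩; exact ⟨i, hi, rfl⟩
    · rintro ⟨i, hi, rfl⟩; exact ⟨i, hi, rfl⟩
  have hzC : z ∈ univ \ C := by
    rw [mem_sdiff, hmC]
    exact ⟨mem_univ _, fun ⟨i, hi, e⟩ => hz i hi e⟩
  set D := cpt G (univ \ C) z with hD
  have hDC : ∀ x ∈ D, ∀ j < n, x ≠ c j := by
    intro x hx j hj e
    have := cpt_subset hx
    rw [mem_sdiff, hmC] at this
    exact this.2 ⟨j, hj, e⟩
  have hout : ∀ x ∈ D, ∀ y, y ∉ D → G.Adj x y → ∃ i < n, y = c i := by
    intro x hx y hy ha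
    by_contra hc
    have hyC : y ∈ univ \ C := by
      rw [mem_sdiff, hmC]; exact ⟨mem_univ _, hc⟩
    exact not_adj_cpt hzC hx hyC hy ha
  have hcD : ∀ j < n, c j ∉ D := fun j hj h' => hDC _ h' j hj rfl
  obtain ⟨x, hx, y, hy, hxy⟩ := h2.conn.2 D (subset_univ _) ⟨z, mem_cpt_self hzC⟩
    ⟨c 0, mem_sdiff.2 ⟨mem_univ _, hcD 0 (by omega)⟩⟩
  obtain ⟨i, hi, rfl⟩ := hout x hx y (mem_sdiff.1 hy).2 hxy
  obtain ⟨j', hj', hne⟩ : ∃ j' < n, j' ≠ i := by
    by_cases h0 : i = 0
    · exact ⟨1, by omega, by omega⟩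
    · exact ⟨0, by omega, by omega⟩
  obtain ⟨x', hx', y', hy', hxy'⟩ := (h2.del (c i)).2 D (fun w hw => mem_erase.2
    ⟨hDC w hw i hi, mem_univ _⟩) ⟨z, mem_cpt_self hzC⟩
    ⟨c j', mem_sdiff.2 ⟨mem_erase.2 ⟨fun e => hne (h.inj _ hj' _ hi e), mem_univ _⟩, hcD j' hj'⟩⟩
  obtain ⟨j, hj, rfl⟩ := hout x' hx' y' (mem_sdiff.1 hy').2 hxy'
  have hij : i ≠ j := by
    rintro rfl
    exact (mem_erase.1 (mem_sdiff.1 hy').1).1 rfl
  obtain ⟨q, m, hq, hq0, hqm, hqD⟩ := exists_indPath (cn_cpt hzC) hx hx'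
  refine ⟨q, m, hq, fun a ha b hb => hDC _ (hqD a ha) b hb, i, hi, j, hj, hij, ?_, ?_⟩
  · rw [hq0]; exact hxy
  · rw [hqm]; exact hxy'

/-- An induced path on three vertices. -/
theorem exists_p3 (h2 : Cn G univ) {x y : V} (hne : x ≠ y) (hn : ¬ G.Adj x y) :
    ∃ x' a y', G.Adj a x' ∧ G.Adj a y' ∧ ¬ G.Adj x' y' ∧ x' ≠ y' := by
  obtain ⟨p, r, hp, h0, hr, -⟩ := exists_indPath h2 (mem_univ x) (mem_univ y)
  have hr2 : 2 ≤ r := by
    by_contra hc
    rcases Nat.eq_zero_or_pos r with h | h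
    · subst h; exact hne (h0.symm.trans hr)
    · have : r = 1 := by omega
      subst this
      have := (hp.2 0 (by omega) 1 (by omega)).2 (by omega)
      rw [h0, hr] at this
      exact hn this
  refine ⟨p 0, p 1, p 2, ?_, ?_, ?_, ?_⟩
  · exact (hp.2 _ (by omega) _ (by omega)).2 (by omega)
  · exact (hp.2 _ (by omega) _ (by omega)).2 (by omega)
  · rw [hp.2 _ (by omega) _ (by omega)]; omega
  · intro e
    have := hp.1 _ (by omega) _ (by omega) e
    omega

theorem two_conn_diamond (h2 : TwoConn G) (hG : ¬ ITM diamond G) :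
    P4Free G univ ∨ ∀ x, ((univ : Finset V).filter (fun y => G.Adj x y)).card ≤ 2 := by
  by_cases hcomp : ∀ x y, x ≠ y → G.Adj x y
  · left
    intro a _ b _ c _ d _ hac _ _ _ _ _
    exact Or.inl (hcomp a c hac)
  push Not at hcomp
  obtain ⟨x, y, hne, hn⟩ := hcomp
  obtain ⟨x', a, y', hax, hay, hxy, hne'⟩ := exists_p3 h2.conn hne hn
  obtain ⟨p, r, hp, h0, hr, hpa⟩ := exists_indPath (h2.del a) (x := x') (y := y')
    (mem_erase.2 ⟨hax.ne.symm, mem_univ _⟩) (mem_erase.2 ⟨hay.ne.symm, mem_univ _⟩)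
  have hpa' : ∀ i ≤ r, a ≠ p i := fun i hi e => (mem_erase.1 (hpa i hi)).1 e.symm
  have hr2 : 2 ≤ r := by
    by_contra hc
    rcases Nat.eq_zero_or_pos r with h | h
    · subst h; exact hne' (h0.symm.trans hr)
    · have : r = 1 := by omega
      subst this
      have := (hp.2 0 (by omega) 1 (by omega)).2 (by omega)
      rw [h0, hr] at this
      exact hxy this
  -- there is a hole
  obtain ⟨c, n, hc, h4⟩ : ∃ c n, IndCycle G c n ∧ 4 ≤ n := by
    obtain ⟨t, t1, t2, t3, t4, t5⟩ := exists_cycle hp (s := 0) (by omega) hpa' (by rw [h0]; exact hax)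
      (by rw [hr]; exact hay)
    by_cases ht : t = 1
    · subst ht
      obtain ⟨t', u1, u2, u3, u4, u5⟩ := exists_cycle hp (s := 1) (by omega) hpa' t3
        (by rw [hr]; exact hay)
      by_cases ht' : t' = 2
      · exfalso
        subst ht'
        apply hG
        refine (itmon_diamond (s := a) (t := p 1) (q := p 0) (r := p 2) t3 ?_ u3 ?_ ?_ ?_ ?_).itm
        · rw [h0]; exact hax
        · exact (hp.2 _ (by omega) _ (by omega)).2 (by omega)
        · exact (hp.2 _ (by omega) _ (by omega)).2 (by omega)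
        · rw [hp.2 _ (by omega) _ (by omega)]; omega
        · intro e
          have := hp.1 _ (by omega) _ (by omega) e
          omega
      · exact ⟨_, _, u5, by omega⟩
    · exact ⟨_, _, t5, by omega⟩
  right
  apply deg_two_of_cover hc
  by_contra hcov
  obtain ⟨q, m, hq, hqc, i, hi, j, hj, hij, ha1, ha2⟩ := TwoConn.attach h2 hc hcov
  exact path_attach hG m c n hc h4 q hq hqc i hi j hj hij ha1 ha2

end Pool.Agent.L0h65.CW
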