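import Pool.Agent.H175R2.Defs

set_option autoImplicit false

/-!
# Subdivisions and induced topological minors
-/

namespace Pool.Agent.L0h65.CW

open Pool.Agent.H175R2

/-- Subdividing the edge `uv` of `G` once: the new vertex is `none`; it is adjacent to `u` and `v`, and
the edge `uv` is removed. -/
def subdivideEdge {U : Type} (G : SimpleGraph U) (u v : U) : SimpleGraph (Option U) :=
  SimpleGraph.fromRel (fun x y =>
    (∃ a b, x = some a ∧ y = some b ∧ G.Adj a b ∧ ¬ (a = u ∧ b = v) ∧ ¬ (a = v ∧ b = u)) ∨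
    (x = none ∧ (y = some u ∨ y = some v)))

/-- `IsSubdivision H G`: the graph `G` is isomorphic to a subdivision of `H`, that is, to a graph
obtained from `H` by repeatedly subdividing an edge once. -/
inductive IsSubdivision {W : Type} (H : SimpleGraph W) : ∀ {U : Type}, SimpleGraph U → Prop
  | iso {U : Type} {G : SimpleGraph U} (e : H ≃g G) : IsSubdivision H G
  | step {U : Type} {G : SimpleGraph U} {u v : U} (huv : G.Adj u v) (h : IsSubdivision H G) :
      IsSubdivision H (subdivideEdge G u v)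

/-- `H` is an induced topological minor of `G`: some induced subgraph of `G` is isomorphic to a
subdivision of `H`. -/
def ITM {W V : Type} (H : SimpleGraph W) (G : SimpleGraph V) : Prop :=
  ∃ (U : Type) (K : SimpleGraph U), IsSubdivision H K ∧ K.IsIndContained G

/-- Clique-width is bounded on the class of (finite) `H`-induced-topological-minor-free graphs. -/
def BddITM {W : Type} (H : SimpleGraph W) : Prop :=
  ∃ c : ℕ, ∀ (V : Type) [Finite V] (G : SimpleGraph V), ¬ ITM H G → cliqueWidth G ≤ c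

section
variable {U : Type} {G : SimpleGraph U} {u v : U}

theorem sub_some_some (a b : U) : (subdivideEdge G u v).Adj (some a) (some b) ↔
    G.Adj a b ∧ ¬ (a = u ∧ b = v) ∧ ¬ (a = v ∧ b = u) := by
  unfold subdivideEdge
  rw [SimpleGraph.fromRel_adj]
  constructor
  · rintro ⟨hne, (⟨a', b', h1, h2, h3, h4, h5⟩ | ⟨h, _⟩) | (⟨a', b', h1, h2, h3, h4, h5⟩ | ⟨h, _⟩)⟩
    · cases h1; cases h2; exact ⟨h3, h4, h5⟩
    · cases h
    · cases h1; cases h2
      exact ⟨h3.symm, fun h => h5 ⟨h.2, h.1⟩, fun h => h4 ⟨h.2, h.1⟩⟩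
    · cases h
  · rintro ⟨h1, h2, h3⟩
    exact ⟨fun h => h1.ne (Option.some.inj h), Or.inl (Or.inl ⟨a, b, rfl, rfl, h1, h2, h3⟩)⟩

theorem sub_none_some (a : U) : (subdivideEdge G u v).Adj none (some a) ↔ a = u ∨ a = v := by
  unfold subdivideEdge
  rw [SimpleGraph.fromRel_adj]
  constructor
  · rintro ⟨-, (⟨a', b', h1, -⟩ | ⟨-, h⟩) | (⟨a', b', -, h2, -⟩ | ⟨h, -⟩)⟩
    · cases h1
    · rcases h with h | h
      · exact Or.inl (Option.some.inj h)
      · exact Or.inr (Option.some.inj h)
    · cases h2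
    · cases h
  · intro h
    refine ⟨by simp, Or.inl (Or.inr ⟨rfl, ?_⟩)⟩
    rcases h with rfl | rfl
    · exact Or.inl rfl
    · exact Or.inr rfl

theorem sub_some_none (a : U) : (subdivideEdge G u v).Adj (some a) none ↔ a = u ∨ a = v := by
  rw [SimpleGraph.adj_comm, sub_none_some]

theorem sub_none_none : ¬ (subdivideEdge G u v).Adj none none := fun h => h.ne rfl

end

/-- `H` has a subdivision which is isomorphic to the subgraph induced by `S`. -/
def ITMon {W V : Type} (H : SimpleGraph W) (G : SimpleGraph V) (S : Set V) : Prop :=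
  ∃ (U : Type) (K : SimpleGraph U) (φ : K ↪g G), IsSubdivision H K ∧ Set.range φ = S

variable {W V : Type} {H : SimpleGraph W}

theorem ITMon.itm {G : SimpleGraph V} {S : Set V} (h : ITMon H G S) : ITM H G := by
  obtain ⟨U, K, φ, hK, -⟩ := h
  exact ⟨U, K, hK, ⟨φ⟩⟩

theorem ITMon.congr {G G' : SimpleGraph V} {S : Set V} (h : ITMon H G S)
    (hG : ∀ x ∈ S, ∀ y ∈ S, (G.Adj x y ↔ G'.Adj x y)) : ITMon H G' S := by
  obtain ⟨U, K, φ, hK, hφ⟩ := h
  refine ⟨U, K, ⟨φ.toEmbedding, ?_⟩, hK, hφ⟩
  intro a b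
  have ha : φ a ∈ S := by rw [← hφ]; exact ⟨a, rfl⟩
  have hb : φ b ∈ S := by rw [← hφ]; exact ⟨b, rfl⟩
  show G'.Adj (φ a) (φ b) ↔ K.Adj a b
  rw [← hG _ ha _ hb, φ.map_adj_iff]

open SimpleGraph in
theorem ITMon.step {G : SimpleGraph V} {S : Set V} {u v c : V} (h : ITMon H (G ⊔ edge u v) S)
    (hu : u ∈ S) (hv : v ∈ S) (huv : u ≠ v) (hn : ¬ G.Adj u v) (hc : c ∉ S)
    (hcS : ∀ x ∈ S, (G.Adj c x ↔ x = u ∨ x = v)) : ITMon H G (insert c S) := by
  obtain ⟨U, K, φ', hK, hφ'⟩ := h
  obtain ⟨φ, hinj, hadj, hφ⟩ : ∃ φ : U → V, Function.Injective φ ∧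
      (∀ x y, (G ⊔ edge u v).Adj (φ x) (φ y) ↔ K.Adj x y) ∧ Set.range φ = S :=
    ⟨φ', φ'.injective, fun x y => φ'.map_adj_iff, hφ'⟩
  obtain ⟨a, ha⟩ : ∃ a, φ a = u := by rw [← hφ] at hu; exact hu
  obtain ⟨b, hb⟩ : ∃ b, φ b = v := by rw [← hφ] at hv; exact hv
  have hmem : ∀ x, φ x ∈ S := fun x => by rw [← hφ]; exact ⟨x, rfl⟩
  have hxa : ∀ x, φ x = u ↔ x = a := fun x => by rw [← ha, hinj.eq_iff]
  have hxb : ∀ x, φ x = v ↔ x = b := fun x => by rw [← hb, hinj.eq_iff]
  have hab : K.Adj a b := by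
    rw [← hadj, sup_adj, edge_adj, ha, hb]
    exact Or.inr ⟨Or.inl ⟨rfl, rfl⟩, huv⟩
  have hK' : ∀ x y, K.Adj x y ↔ G.Adj (φ x) (φ y) ∨ ((x = a ∧ y = b) ∨ (x = b ∧ y = a)) := by
    intro x y
    rw [← hadj, sup_adj, edge_adj]
    simp only [hxa, hxb]
    constructor
    · rintro (h | ⟨h, -⟩)
      · exact Or.inl h
      · exact Or.inr h
    · rintro (h | h)
      · exact Or.inl h
      · refine Or.inr ⟨h, ?_⟩
        rcases h with ⟨rfl, rfl⟩ | ⟨rfl, rfl⟩
        · rw [ha, hb]; exact huv
        · rw [ha, hb]; exact huv.symm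
  let ψ : Option U → V := fun o => o.elim c φ
  have hψinj : Function.Injective ψ := by
    rintro (_ | x) (_ | y) hxy
    · rfl
    · exact absurd (hmem y) (by rw [show φ y = c from hxy.symm]; exact hc)
    · exact absurd (hmem x) (by rw [show φ x = c from hxy]; exact hc)
    · exact congrArg some (hinj hxy)
  refine ⟨Option U, subdivideEdge K a b, ⟨⟨ψ, hψinj⟩, ?_⟩, IsSubdivision.step hab hK, ?_⟩
  · rintro (_ | x) (_ | y)
    · exact ⟨fun h => absurd rfl h.ne, fun h => absurd rfl h.ne⟩
    · show G.Adj c (φ y) ↔ (subdivideEdge K a b).Adj none (some y)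
      rw [sub_none_some, hcS _ (hmem y), hxa, hxb]
    · show G.Adj (φ x) c ↔ (subdivideEdge K a b).Adj (some x) none
      rw [sub_some_none, G.adj_comm, hcS _ (hmem x), hxa, hxb]
    · show G.Adj (φ x) (φ y) ↔ (subdivideEdge K a b).Adj (some x) (some y)
      rw [sub_some_some, hK']
      constructor
      · intro h
        refine ⟨Or.inl h, ?_, ?_⟩
        · rintro ⟨rfl, rfl⟩; rw [ha, hb] at h; exact hn h
        · rintro ⟨rfl, rfl⟩; rw [ha, hb] at h; exact hn h.symm
      · rintro ⟨h | h | h, h1, h2⟩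
        · exact h
        · exact absurd h h1
        · exact absurd h h2
  · ext x
    simp only [Set.mem_range, Set.mem_insert_iff]
    constructor
    · rintro ⟨_ | y, rfl⟩
      · exact Or.inl rfl
      · exact Or.inr (hmem y)
    · rintro (rfl | hx)
      · exact ⟨none, rfl⟩
      · rw [← hφ] at hx
        obtain ⟨y, rfl⟩ := hx
        exact ⟨some y, rfl⟩

/-- `p 0, …, p r` is an induced path. -/
def IndPath (G : SimpleGraph V) (p : ℕ → V) (r : ℕ) : Prop :=
  (∀ i ≤ r, ∀ j ≤ r, p i = p j → i = j) ∧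
    ∀ i ≤ r, ∀ j ≤ r, (G.Adj (p i) (p j) ↔ i + 1 = j ∨ j + 1 = i)

open SimpleGraph in
/-- Replacing an edge by an induced path. -/
theorem ITMon.path : ∀ (r : ℕ) (G : SimpleGraph V) (S : Set V) (p : ℕ → V), 1 ≤ r → IndPath G p r →
    p 0 ∈ S → p r ∈ S → (∀ i, 0 < i → i < r → p i ∉ S) →
    (∀ i, 0 < i → i < r → ∀ x ∈ S, G.Adj (p i) x → (x = p 0 ∧ i = 1) ∨ (x = p r ∧ i + 1 = r)) →
    ITMon H (G ⊔ edge (p 0) (p r)) S → ITMon H G (S ∪ {x | ∃ i, 0 < i ∧ i < r ∧ x = p i}) := by
  intro r
  induction r with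
  | zero => intro G S p h; omega
  | succ r ih =>
    intro G S p _ hp h0 hr hint hadj h
    by_cases hr0 : r = 0
    · subst hr0
      have e1 : S ∪ {x | ∃ i, 0 < i ∧ i < 0 + 1 ∧ x = p i} = S := by
        ext x
        simp only [Set.mem_union, Set.mem_ofPred_eq]
        constructor
        · rintro (h | ⟨i, h1, h2, -⟩)
          · exact h
          · omega
        · exact Or.inl
      rw [e1]
      refine h.congr fun x hx y hy => ?_
      rw [sup_adj, edge_adj]
      constructor
      · rintro (h | ⟨⟨rfl, rfl⟩ | ⟨rfl, rfl⟩, -⟩)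
        · exact h
        · exact (hp.2 _ (by omega) _ (by omega)).2 (by omega)
        · exact (hp.2 _ (by omega) _ (by omega)).2 (by omega)
      · exact Or.inl
    · have hne : p 0 ≠ p (r + 1) := fun h => by
        have := hp.1 0 (by omega) (r + 1) (le_refl _) h
        omega
      have h1S : p 1 ∉ S := hint 1 (by omega) (by omega)
      -- graph with the additional edge `p 1, p (r+1)`
      have hs : ITMon H (G ⊔ edge (p 1) (p (r + 1))) (insert (p 1) S) := by
        apply ITMon.step (u := p 0) (v := p (r + 1)) _ h0 hr hne _ h1S _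
        · refine h.congr fun x hx y hy => ?_
          have hx1 : x ≠ p 1 := fun h => h1S (h ▸ hx)
          have hy1 : y ≠ p 1 := fun h => h1S (h ▸ hy)
          simp only [sup_adj, edge_adj, hx1, hy1, false_and, and_false, or_false]
        · rw [sup_adj, edge_adj, hp.2 0 (by omega) (r + 1) (le_refl _)]
          have e1 : p 0 ≠ p 1 := fun h => by
            have := hp.1 0 (by omega) 1 (by omega) h
            omega
          rintro (h | ⟨⟨h, -⟩ | ⟨h, -⟩, -⟩)
          · omega
          · exact e1 h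
          · exact hne h
        · intro x hx
          have hx1 : x ≠ p 1 := fun h => h1S (h ▸ hx)
          have e1 : p 1 ≠ p (r + 1) := fun h => by
            have := hp.1 1 (by omega) (r + 1) (by omega) h
            omega
          rw [sup_adj, edge_adj]
          constructor
          · rintro (h | ⟨⟨-, h⟩ | ⟨h, -⟩, -⟩)
            · rcases hadj 1 (by omega) (by omega) x hx h with h | h
              · exact Or.inl h.1
              · exact Or.inr h.1
            · exact Or.inr h
            · exact absurd h e1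
          · rintro (rfl | rfl)
            · exact Or.inl ((hp.2 _ (by omega) _ (by omega)).2 (by omega))
            · exact Or.inr ⟨Or.inl ⟨rfl, rfl⟩, e1⟩
      have := ih G (insert (p 1) S) (fun i => p (i + 1)) (by omega) ?_ (by simp) (by
          simp only [Set.mem_insert_iff]; exact Or.inr hr) ?_ ?_ (by simpa using hs)
      · have e : insert (p 1) S ∪ {x | ∃ i, 0 < i ∧ i < r ∧ x = p (i + 1)} =
            S ∪ {x | ∃ i, 0 < i ∧ i < r + 1 ∧ x = p i} := by
          ext x
          simp only [Set.mem_union, Set.mem_insert_iff, Set.mem_ofPred_eq]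
          constructor
          · rintro ((rfl | h) | ⟨i, h1, h2, rfl⟩)
            · exact Or.inr ⟨1, by omega, by omega, rfl⟩
            · exact Or.inl h
            · exact Or.inr ⟨i + 1, by omega, by omega, rfl⟩
          · rintro (h | ⟨i, h1, h2, rfl⟩)
            · exact Or.inl (Or.inr h)
            · by_cases hi : i = 1
              · subst hi; exact Or.inl (Or.inl rfl)
              · exact Or.inr ⟨i - 1, by omega, by omega, by rw [Nat.sub_add_cancel (by omega)]⟩
        rw [← e]
        exact this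
      · refine ⟨fun i hi j hj hij => ?_, fun i hi j hj => ?_⟩
        · have := hp.1 (i + 1) (by omega) (j + 1) (by omega) hij
          omega
        · rw [hp.2 (i + 1) (by omega) (j + 1) (by omega)]
          omega
      · intro i hi1 hi2
        simp only [Set.mem_insert_iff, not_or]
        refine ⟨fun h => ?_, hint (i + 1) (by omega) (by omega)⟩
        have := hp.1 (i + 1) (by omega) 1 (by omega) h
        omega
      · intro i hi1 hi2 x hx hax
        rcases hx with rfl | hx
        · have := (hp.2 (i + 1) (by omega) 1 (by omega)).1 hax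
          left
          exact ⟨rfl, by omega⟩
        · rcases hadj (i + 1) (by omega) (by omega) x hx hax with h | h
          · omega
          · right
            exact ⟨h.1, by omega⟩

/-- A subgraph relation between graphs gives one between subdivisions. -/
theorem IsSubdivision.restrict {W' : Type} {H' : SimpleGraph W'} (f : H' ↪g H) {U : Type}
    {G : SimpleGraph U} (h : IsSubdivision H G) : ITM H' G := by
  induction h with
  | iso e => exact ⟨W', H', IsSubdivision.iso (SimpleGraph.Iso.refl), ⟨e.toEmbedding.comp f⟩⟩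
  | @step U G u v huv h ih =>
    obtain ⟨U', K, hK, ⟨φ⟩⟩ := ih
    by_cases hu : ∃ a, φ a = u
    · by_cases hv : ∃ b, φ b = v
      · obtain ⟨a, rfl⟩ := hu
        obtain ⟨b, rfl⟩ := hv
        refine ⟨Option U', subdivideEdge K a b, IsSubdivision.step (φ.map_adj_iff.1 huv) hK,
          ⟨⟨⟨Option.map φ, Option.map_injective φ.injective⟩, ?_⟩⟩⟩
        rintro (_ | x) (_ | y)
        · exact ⟨fun h => absurd rfl h.ne, fun h => absurd rfl h.ne⟩
        · show (subdivideEdge G (φ a) (φ b)).Adj none (some (φ y)) ↔ _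
          rw [sub_none_some, sub_none_some, φ.injective.eq_iff, φ.injective.eq_iff]
        · show (subdivideEdge G (φ a) (φ b)).Adj (some (φ x)) none ↔ _
          rw [sub_some_none, sub_some_none, φ.injective.eq_iff, φ.injective.eq_iff]
        · show (subdivideEdge G (φ a) (φ b)).Adj (some (φ x)) (some (φ y)) ↔ _
          rw [sub_some_some, sub_some_some, φ.map_adj_iff]
          simp only [φ.injective.eq_iff]
      · refine ⟨U', K, hK, ⟨⟨⟨fun x => some (φ x), fun x y h => φ.injective (Option.some.inj h)⟩, ?_⟩⟩⟩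
        intro x y
        show (subdivideEdge G u v).Adj (some (φ x)) (some (φ y)) ↔ _
        rw [sub_some_some, φ.map_adj_iff]
        constructor
        · exact fun h => h.1
        · exact fun h => ⟨h, fun h' => hv ⟨y, h'.2⟩, fun h' => hv ⟨x, h'.1⟩⟩
    · refine ⟨U', K, hK, ⟨⟨⟨fun x => some (φ x), fun x y h => φ.injective (Option.some.inj h)⟩, ?_⟩⟩⟩
      intro x y
      show (subdivideEdge G u v).Adj (some (φ x)) (some (φ y)) ↔ _
      rw [sub_some_some, φ.map_adj_iff]
      constructor
      · exact fun h => h.1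
      · exact fun h => ⟨h, fun h' => hu ⟨x, h'.1⟩, fun h' => hu ⟨y, h'.2⟩⟩

theorem ITM.mono_left {W' : Type} {H' : SimpleGraph W'} {G : SimpleGraph V} (h : ITM H G)
    (f : H'.IsIndContained H) : ITM H' G := by
  obtain ⟨U, K, hK, ⟨φ⟩⟩ := h
  obtain ⟨f⟩ := f
  obtain ⟨U', K', hK', ⟨ψ⟩⟩ := hK.restrict f
  exact ⟨U', K', hK', ⟨φ.comp ψ⟩⟩

theorem ITM.mono_right {V' : Type} {G : SimpleGraph V} {G' : SimpleGraph V'} (h : ITM H G)
    (f : G ↪g G') : ITM H G' := by
  obtain ⟨U, K, hK, ⟨φ⟩⟩ := h
  exact ⟨U, K, hK, ⟨f.comp φ⟩⟩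

theorem BddITM.mono {W' : Type} {H' : SimpleGraph W'} (h : BddITM H) (f : H'.IsIndContained H) :
    BddITM H' := by
  obtain ⟨c, hc⟩ := h
  exact ⟨c, fun V _ G hG => hc V G fun h' => hG (h'.mono_left f)⟩

end Pool.Agent.L0h65.CW
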