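import Pool.Agent.L0h65.CW.Sub

set_option autoImplicit false

/-!
# Finding subdivisions of the paw and of the diamond
-/

namespace Pool.Agent.L0h65.CW

open Pool.Agent.H175R2 SimpleGraph

variable {V : Type}

theorem itmon_diamond {G : SimpleGraph V} {s t q r : V} (hst : G.Adj s t) (hsq : G.Adj s q)
    (hsr : G.Adj s r) (htq : G.Adj t q) (htr : G.Adj t r) (hqr : ¬ G.Adj q r) (hne : q ≠ r) :
    ITMon diamond G {s, t, q, r} := by
  have n1 := hst.ne
  have n2 := hsq.ne
  have n3 := hsr.ne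
  have n4 := htq.ne
  have n5 := htr.ne
  refine ⟨Fin 4, diamond, ⟨⟨![s, t, q, r], ?_⟩, ?_⟩, IsSubdivision.iso (SimpleGraph.Iso.refl), ?_⟩
  · intro i j
    fin_cases i <;> fin_cases j <;> simp [n1, n2, n3, n4, n5, hne, n1.symm, n2.symm, n3.symm,
      n4.symm, n5.symm, hne.symm]
  · intro i j
    have hrq : ¬ G.Adj r q := fun h => hqr h.symm
    show G.Adj (![s, t, q, r] i) (![s, t, q, r] j) ↔ diamond.Adj i j
    fin_cases i <;> fin_cases j <;> simp [diamond, hst, hsq, hsr, htq, htr, hqr, hrq, hst.symm,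
      hsq.symm, hsr.symm, htq.symm, htr.symm]
  · ext x
    simp only [RelEmbedding.coe_mk, Set.mem_range, Set.mem_insert_iff,
      Set.mem_singleton_iff]
    constructor
    · rintro ⟨i, rfl⟩
      fin_cases i
      · exact Or.inl rfl
      · exact Or.inr (Or.inl rfl)
      · exact Or.inr (Or.inr (Or.inl rfl))
      · exact Or.inr (Or.inr (Or.inr rfl))
    · rintro (rfl | rfl | rfl | rfl)
      · exact ⟨0, rfl⟩
      · exact ⟨1, rfl⟩
      · exact ⟨2, rfl⟩
      · exact ⟨3, rfl⟩

theorem itmon_paw {G : SimpleGraph V} {w x y v : V} (hwx : G.Adj w x) (hwy : G.Adj w y)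
    (hxy : G.Adj x y) (hwv : G.Adj w v) (hvx : ¬ G.Adj v x) (hvy : ¬ G.Adj v y) (n1 : v ≠ x)
    (n2 : v ≠ y) : ITMon paw G {w, x, y, v} := by
  have n3 := hwx.ne
  have n4 := hwy.ne
  have n5 := hxy.ne
  have n6 := hwv.ne
  have hvx' : ¬ G.Adj x v := fun h => hvx h.symm
  have hvy' : ¬ G.Adj y v := fun h => hvy h.symm
  refine ⟨Fin 4, paw, ⟨⟨![w, x, y, v], ?_⟩, ?_⟩, IsSubdivision.iso (SimpleGraph.Iso.refl), ?_⟩
  · intro i j
    fin_cases i <;> fin_cases j <;> simp [n1, n2, n3, n4, n5, n6, n1.symm, n2.symm, n3.symm,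
      n4.symm, n5.symm, n6.symm]
  · intro i j
    show G.Adj (![w, x, y, v] i) (![w, x, y, v] j) ↔ paw.Adj i j
    fin_cases i <;> fin_cases j <;> simp [paw, hwx, hwy, hxy, hwv, hvx, hvy, hvx', hvy', hwx.symm,
      hwy.symm, hxy.symm, hwv.symm]
  · ext z
    simp only [RelEmbedding.coe_mk, Set.mem_range, Set.mem_insert_iff,
      Set.mem_singleton_iff]
    constructor
    · rintro ⟨i, rfl⟩
      fin_cases i
      · exact Or.inl rfl
      · exact Or.inr (Or.inl rfl)
      · exact Or.inr (Or.inr (Or.inl rfl))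
      · exact Or.inr (Or.inr (Or.inr rfl))
    · rintro (rfl | rfl | rfl | rfl)
      · exact ⟨0, rfl⟩
      · exact ⟨1, rfl⟩
      · exact ⟨2, rfl⟩
      · exact ⟨3, rfl⟩

/-- An induced cycle. -/
structure IndCycle (G : SimpleGraph V) (c : ℕ → V) (n : ℕ) : Prop where
  h3 : 3 ≤ n
  inj : ∀ i < n, ∀ j < n, c i = c j → i = j
  adj : ∀ i < n, ∀ j < n, i < j → (G.Adj (c i) (c j) ↔ i + 1 = j ∨ (i = 0 ∧ j + 1 = n))

/-- rotating the indices -/
def rot (c : ℕ → V) (n k : ℕ) (i : ℕ) : V := if i + k < n then c (i + k) else c (i + k - n)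

theorem IndCycle.rot {G : SimpleGraph V} {c : ℕ → V} {n : ℕ} (h : IndCycle G c n) (k : ℕ)
    (hk : k < n) : IndCycle G (rot c n k) n := by
  refine ⟨h.h3, ?_, ?_⟩
  · intro i hi j hj hij
    unfold CW.rot at hij
    split_ifs at hij with h1 h2 h2
    · have := h.inj _ h1 _ h2 hij; omega
    · have := h.inj _ h1 _ (by omega) hij; omega
    · have := h.inj _ (by omega) _ h2 hij; omega
    · have := h.inj _ (by omega) _ (by omega) hij; omega
  · intro i hi j hj hij
    have h3 := h.h3
    unfold CW.rot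
    split_ifs with h1 h2 h2
    · rw [h.adj _ h1 _ h2 (by omega)]; omega
    · rw [G.adj_comm, h.adj _ (by omega) _ h1 (by omega)]; omega
    · omega
    · rw [h.adj _ (by omega) _ (by omega) (by omega)]; omega

theorem rot_mem {c : ℕ → V} {n k i : ℕ} (hk : k < n) (hi : i < n) :
    ∃ j < n, rot c n k i = c j := by
  unfold rot
  split_ifs with h
  · exact ⟨_, h, rfl⟩
  · exact ⟨_, by omega, rfl⟩

/-- A vertex with exactly one neighbour on an induced cycle gives a subdivision of the paw. -/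
theorem paw_of_cycle_zero {G : SimpleGraph V} {c : ℕ → V} {n : ℕ} (h : IndCycle G c n) {v : V}
    (hv : ∀ i < n, v ≠ c i) (h0 : G.Adj v (c 0)) (h1 : ∀ i < n, 0 < i → ¬ G.Adj v (c i)) :
    ITM paw G := by
  have h3 := h.h3
  have ne : ∀ i < n, ∀ j < n, i ≠ j → c i ≠ c j := fun i hi j hj hij e => hij (h.inj i hi j hj e)
  have key : ITMon paw (G ⊔ edge (c 1) (c (n - 1))) {c 0, c 1, c (n - 1), v} := by
    apply itmon_paw
    · exact Or.inl ((h.adj 0 (by omega) 1 (by omega) (by omega)).2 (by omega))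
    · exact Or.inl ((h.adj 0 (by omega) (n - 1) (by omega) (by omega)).2 (by omega))
    · rw [sup_adj, edge_adj]
      exact Or.inr ⟨Or.inl ⟨rfl, rfl⟩, ne _ (by omega) _ (by omega) (by omega)⟩
    · exact Or.inl h0.symm
    · rw [sup_adj, edge_adj]
      rintro (h2 | ⟨⟨h2, -⟩ | ⟨h2, -⟩, -⟩)
      · exact h1 1 (by omega) (by omega) h2
      · exact hv _ (by omega) h2
      · exact hv _ (by omega) h2
    · rw [sup_adj, edge_adj]
      rintro (h2 | ⟨⟨h2, -⟩ | ⟨h2, -⟩, -⟩)
      · exact h1 (n - 1) (by omega) (by omega) h2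
      · exact hv _ (by omega) h2
      · exact hv _ (by omega) h2
    · exact hv _ (by omega)
    · exact hv _ (by omega)
  refine (ITMon.path (n - 2) G {c 0, c 1, c (n - 1), v} (fun i => c (i + 1)) (by omega) ?_ (by simp)
    ?_ ?_ ?_ ?_).itm
  · refine ⟨fun i hi j hj hij => ?_, fun i hi j hj => ?_⟩
    · have := h.inj (i + 1) (by omega) (j + 1) (by omega) hij; omega
    · rcases lt_trichotomy i j with hij | hij | hij
      · rw [h.adj (i + 1) (by omega) (j + 1) (by omega) (by omega)]; omega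
      · subst hij
        exact ⟨fun h => absurd rfl h.ne, fun h => by omega⟩
      · rw [G.adj_comm, h.adj (j + 1) (by omega) (i + 1) (by omega) (by omega)]; omega
  · have : n - 2 + 1 = n - 1 := by omega
    simp [this]
  · intro i hi1 hi2
    simp only [Set.mem_insert_iff, Set.mem_singleton_iff, not_or]
    exact ⟨ne _ (by omega) _ (by omega) (by omega), ne _ (by omega) _ (by omega) (by omega),
      ne _ (by omega) _ (by omega) (by omega), (hv _ (by omega)).symm⟩
  · intro i hi1 hi2 x hx hax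
    simp only [Set.mem_insert_iff, Set.mem_singleton_iff] at hx
    have e : n - 2 + 1 = n - 1 := by omega
    rcases hx with rfl | rfl | rfl | rfl
    · rw [G.adj_comm, h.adj 0 (by omega) (i + 1) (by omega) (by omega)] at hax; omega
    · rw [G.adj_comm, h.adj 1 (by omega) (i + 1) (by omega) (by omega)] at hax
      left
      exact ⟨rfl, by omega⟩
    · rw [h.adj (i + 1) (by omega) (n - 1) (by omega) (by omega)] at hax
      right
      exact ⟨by simp only [e], by omega⟩
    · exact absurd hax.symm (h1 _ (by omega) (by omega))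
  · have e : n - 2 + 1 = n - 1 := by omega
    simp only [zero_add, e]
    exact key

/-- Three internally disjoint paths between `s` and `t` with no further edges. -/
structure Theta (G : SimpleGraph V) (s t : V) (P Q R : ℕ → V) (a b c : ℕ) : Prop where
  ha : 1 ≤ a
  hb : 2 ≤ b
  hc : 2 ≤ c
  P0 : P 0 = s
  Q0 : Q 0 = s
  R0 : R 0 = s
  Pa : P a = t
  Qb : Q b = t
  Rc : R c = t
  P1 : ∀ i ≤ a, ∀ j ≤ a, P i = P j → i = j
  Q1 : ∀ i ≤ b, ∀ j ≤ b, Q i = Q j → i = j
  R1 : ∀ i ≤ c, ∀ j ≤ c, R i = R j → i = j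
  PP : ∀ i ≤ a, ∀ j ≤ a, i < j → (G.Adj (P i) (P j) ↔ i + 1 = j)
  QQ : ∀ i ≤ b, ∀ j ≤ b, i < j → ¬ (i = 0 ∧ j = b) → (G.Adj (Q i) (Q j) ↔ i + 1 = j)
  RR : ∀ i ≤ c, ∀ j ≤ c, i < j → ¬ (i = 0 ∧ j = c) → (G.Adj (R i) (R j) ↔ i + 1 = j)
  PQ : ∀ i < a, 0 < i → ∀ j < b, 0 < j → P i ≠ Q j ∧ ¬ G.Adj (P i) (Q j)
  PR : ∀ i < a, 0 < i → ∀ j < c, 0 < j → P i ≠ R j ∧ ¬ G.Adj (P i) (R j)
  QR : ∀ i < b, 0 < i → ∀ j < c, 0 < j → Q i ≠ R j ∧ ¬ G.Adj (Q i) (R j)

theorem Theta.itm {G : SimpleGraph V} {s t : V} {P Q R : ℕ → V} {a b c : ℕ}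
    (h : Theta G s t P Q R a b c) : ITM diamond G := by
  obtain ⟨ha, hb, hc, P0, Q0, R0, Pa, Qb, Rc, P1, Q1, R1, PP, QQ, RR, PQ, PR, QR⟩ := h
  have hst : s ≠ t := fun e => by
    rw [← P0, ← Pa] at e
    have := P1 _ (by omega) _ (by omega) e
    omega
  -- distinctness facts
  have Qs : ∀ i ≤ b, 0 < i → Q i ≠ s := fun i hi h0 e => by
    rw [← Q0] at e; have := Q1 _ hi _ (by omega) e; omega
  have Qt : ∀ i < b, Q i ≠ t := fun i hi e => by
    rw [← Qb] at e; have := Q1 _ (by omega) _ (by omega) e; omega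
  have Rs : ∀ i ≤ c, 0 < i → R i ≠ s := fun i hi h0 e => by
    rw [← R0] at e; have := R1 _ hi _ (by omega) e; omega
  have Rt : ∀ i < c, R i ≠ t := fun i hi e => by
    rw [← Rc] at e; have := R1 _ (by omega) _ (by omega) e; omega
  have Ps : ∀ i ≤ a, 0 < i → P i ≠ s := fun i hi h0 e => by
    rw [← P0] at e; have := P1 _ hi _ (by omega) e; omega
  have Pt : ∀ i < a, P i ≠ t := fun i hi e => by
    rw [← Pa] at e; have := P1 _ (by omega) _ (by omega) e; omega
  have qr := QR 1 (by omega) (by omega) 1 (by omega) (by omega)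
  set q := Q 1 with hq
  set r := R 1 with hr
  have hsq : G.Adj s q := by
    rw [← Q0, hq, QQ 0 (by omega) 1 (by omega) (by omega) (by omega)]
  have hsr : G.Adj s r := by
    rw [← R0, hr, RR 0 (by omega) 1 (by omega) (by omega) (by omega)]
  have hqs : q ≠ s := hsq.ne.symm
  have hrs : r ≠ s := hsr.ne.symm
  have hqt : q ≠ t := Qt 1 (by omega)
  have hrt : r ≠ t := Rt 1 (by omega)
  have k0 : ITMon diamond (((G ⊔ edge s t) ⊔ edge q t) ⊔ edge r t) {s, t, q, r} := by
    apply itmon_diamond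
    · rw [sup_adj, sup_adj, sup_adj, edge_adj]
      exact Or.inl (Or.inl (Or.inr ⟨Or.inl ⟨rfl, rfl⟩, hst⟩))
    · simp only [sup_adj]
      exact Or.inl (Or.inl (Or.inl hsq))
    · simp only [sup_adj]
      exact Or.inl (Or.inl (Or.inl hsr))
    · rw [sup_adj, sup_adj, sup_adj, edge_adj, edge_adj, edge_adj]
      exact Or.inl (Or.inr ⟨Or.inr ⟨rfl, rfl⟩, hqt.symm⟩)
    · rw [sup_adj, sup_adj, sup_adj, edge_adj, edge_adj, edge_adj]
      exact Or.inr ⟨Or.inr ⟨rfl, rfl⟩, hrt.symm⟩
    · simp only [sup_adj, edge_adj]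
      rintro (((h | ⟨⟨h, -⟩ | ⟨h, -⟩, -⟩) | ⟨⟨-, h⟩ | ⟨h, -⟩, -⟩) | ⟨⟨h, -⟩ | ⟨h, -⟩, -⟩)
      · exact qr.2 h
      · exact hqs h
      · exact hqt h
      · exact hrt h
      · exact hqt h
      · exact qr.1 h
      · exact hqt h
    · exact qr.1
  have k1 := ITMon.path (H := diamond) (c - 1) ((G ⊔ edge s t) ⊔ edge q t) {s, t, q, r}
    (fun i => R (i + 1)) (by omega) ?_ (by simp [← hr]) ?_ ?_ ?_ ?_
  · have k2 := ITMon.path (H := diamond) (b - 1) (G ⊔ edge s t)
      ({s, t, q, r} ∪ {x | ∃ i, 0 < i ∧ i < c - 1 ∧ x = R (i + 1)})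
      (fun i => Q (i + 1)) (by omega) ?_ (by simp [← hq]) ?_ ?_ ?_ ?_
    · have k3 := ITMon.path (H := diamond) a G
        (({s, t, q, r} ∪ {x | ∃ i, 0 < i ∧ i < c - 1 ∧ x = R (i + 1)}) ∪
          {x | ∃ i, 0 < i ∧ i < b - 1 ∧ x = Q (i + 1)})
        P (by omega) ?_ (by simp [P0]) ?_ ?_ ?_ ?_
      · exact k3.itm
      · refine ⟨P1, fun i hi j hj => ?_⟩
        rcases lt_trichotomy i j with hij | hij | hij
        · rw [PP i hi j hj hij]; omega
        · subst hij
          exact ⟨fun h => absurd rfl h.ne, fun h => by omega⟩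
        · rw [G.adj_comm, PP j hj i hi hij]; omega
      · simp [Pa]
      · intro i hi1 hi2
        simp only [Set.mem_union, Set.mem_insert_iff, Set.mem_singleton_iff, Set.mem_ofPred_eq, not_or,
          not_exists, not_and]
        refine ⟨⟨⟨Ps i (by omega) hi1, Pt i hi2, (PQ i hi2 hi1 1 (by omega) (by omega)).1,
          (PR i hi2 hi1 1 (by omega) (by omega)).1⟩, fun j hj1 hj2 => ?_⟩, fun j hj1 hj2 => ?_⟩
        · exact (PR i hi2 hi1 (j + 1) (by omega) (by omega)).1
        · exact (PQ i hi2 hi1 (j + 1) (by omega) (by omega)).1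
      · intro i hi1 hi2 x hx hax
        simp only [Set.mem_union, Set.mem_insert_iff, Set.mem_singleton_iff, Set.mem_ofPred_eq] at hx
        rcases hx with ((rfl | rfl | rfl | rfl) | ⟨j, hj1, hj2, rfl⟩) | ⟨j, hj1, hj2, rfl⟩
        · rw [← P0, G.adj_comm, PP 0 (by omega) i (by omega) hi1] at hax
          left; exact ⟨P0.symm, by omega⟩
        · rw [← Pa, PP i (by omega) a (by omega) hi2] at hax
          right; exact ⟨Pa.symm, by omega⟩
        · exact absurd hax (PQ i hi2 hi1 1 (by omega) (by omega)).2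
        · exact absurd hax (PR i hi2 hi1 1 (by omega) (by omega)).2
        · exact absurd hax (PR i hi2 hi1 (j + 1) (by omega) (by omega)).2
        · exact absurd hax (PQ i hi2 hi1 (j + 1) (by omega) (by omega)).2
      · rw [P0, Pa]; exact k2
    · -- path Q
      have eb : b - 1 + 1 = b := by omega
      refine ⟨fun i hi j hj hij => ?_, fun i hi j hj => ?_⟩
      · have := Q1 (i + 1) (by omega) (j + 1) (by omega) hij; omega
      · have : (G ⊔ edge s t).Adj (Q (i + 1)) (Q (j + 1)) ↔ G.Adj (Q (i + 1)) (Q (j + 1)) := by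
          simp only [sup_adj, edge_adj, Qs (i + 1) (by omega) (by omega),
            Qs (j + 1) (by omega) (by omega), false_and, and_false, or_false]
        simp only [this]
        rcases lt_trichotomy i j with hij | hij | hij
        · rw [QQ (i + 1) (by omega) (j + 1) (by omega) (by omega) (by omega)]; omega
        · subst hij
          exact ⟨fun h => absurd rfl h.ne, fun h => by omega⟩
        · rw [G.adj_comm, QQ (j + 1) (by omega) (i + 1) (by omega) (by omega) (by omega)]; omega
    · have eb : b - 1 + 1 = b := by omega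
      simp [eb, Qb]
    · intro i hi1 hi2
      simp only [Set.mem_union, Set.mem_insert_iff, Set.mem_singleton_iff, Set.mem_ofPred_eq, not_or,
        not_exists, not_and]
      refine ⟨⟨Qs _ (by omega) (by omega), Qt _ (by omega), ?_,
        (QR (i + 1) (by omega) (by omega) 1 (by omega) (by omega)).1⟩, fun j hj1 hj2 => ?_⟩
      · intro e
        have := Q1 (i + 1) (by omega) 1 (by omega) e
        omega
      · exact (QR (i + 1) (by omega) (by omega) (j + 1) (by omega) (by omega)).1
    · intro i hi1 hi2 x hx hax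
      have eb : b - 1 + 1 = b := by omega
      have hax' : G.Adj (Q (i + 1)) x := by
        simp only [sup_adj, edge_adj] at hax
        rcases hax with h | ⟨⟨h, -⟩ | ⟨h, -⟩, -⟩
        · exact h
        · exact absurd h (Qs _ (by omega) (by omega))
        · exact absurd h (Qt _ (by omega))
      simp only [Set.mem_union, Set.mem_insert_iff, Set.mem_singleton_iff, Set.mem_ofPred_eq] at hx
      rcases hx with (rfl | rfl | rfl | rfl) | ⟨j, hj1, hj2, rfl⟩
      · rw [← Q0, G.adj_comm, QQ 0 (by omega) (i + 1) (by omega) (by omega) (by omega)] at hax'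
        omega
      · rw [← Qb, QQ (i + 1) (by omega) b (by omega) (by omega) (by omega)] at hax'
        right; exact ⟨by simp only [eb, Qb], by omega⟩
      · rw [hq, G.adj_comm, QQ 1 (by omega) (i + 1) (by omega) (by omega) (by omega)] at hax'
        left; exact ⟨rfl, by omega⟩
      · exact absurd hax' (QR (i + 1) (by omega) (by omega) 1 (by omega) (by omega)).2
      · exact absurd hax' (QR (i + 1) (by omega) (by omega) (j + 1) (by omega) (by omega)).2
    · have eb : b - 1 + 1 = b := by omega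
      simp only [zero_add, eb, Qb]
      rw [← hq]
      exact k1
  · -- path R
    refine ⟨fun i hi j hj hij => ?_, fun i hi j hj => ?_⟩
    · have := R1 (i + 1) (by omega) (j + 1) (by omega) hij; omega
    · have hRq : ∀ i ≤ c, 0 < i → R i ≠ q := by
        intro i hi h0 e
        by_cases hic : i = c
        · rw [hic, Rc] at e; exact hqt e.symm
        · exact (QR 1 (by omega) (by omega) i (by omega) h0).1 e.symm
      have : ((G ⊔ edge s t) ⊔ edge q t).Adj (R (i + 1)) (R (j + 1)) ↔
          G.Adj (R (i + 1)) (R (j + 1)) := by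
        simp only [sup_adj, edge_adj, Rs (i + 1) (by omega) (by omega),
          Rs (j + 1) (by omega) (by omega), hRq (i + 1) (by omega) (by omega),
          hRq (j + 1) (by omega) (by omega), false_and, and_false, or_false]
      simp only [this]
      rcases lt_trichotomy i j with hij | hij | hij
      · rw [RR (i + 1) (by omega) (j + 1) (by omega) (by omega) (by omega)]; omega
      · subst hij
        exact ⟨fun h => absurd rfl h.ne, fun h => by omega⟩
      · rw [G.adj_comm, RR (j + 1) (by omega) (i + 1) (by omega) (by omega) (by omega)]; omega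
  · have ec : c - 1 + 1 = c := by omega
    simp [ec, Rc]
  · intro i hi1 hi2
    simp only [Set.mem_insert_iff, Set.mem_singleton_iff, not_or]
    refine ⟨Rs _ (by omega) (by omega), Rt _ (by omega),
      (QR 1 (by omega) (by omega) (i + 1) (by omega) (by omega)).1.symm, ?_⟩
    intro e
    have := R1 (i + 1) (by omega) 1 (by omega) e
    omega
  · intro i hi1 hi2 x hx hax
    have ec : c - 1 + 1 = c := by omega
    have hax' : G.Adj (R (i + 1)) x := by
      simp only [sup_adj, edge_adj] at hax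
      rcases hax with (h | ⟨⟨h, -⟩ | ⟨h, -⟩, -⟩) | ⟨⟨h, -⟩ | ⟨h, -⟩, -⟩
      · exact h
      · exact absurd h (Rs _ (by omega) (by omega))
      · exact absurd h (Rt _ (by omega))
      · exact absurd h.symm (QR 1 (by omega) (by omega) (i + 1) (by omega) (by omega)).1
      · exact absurd h (Rt _ (by omega))
    simp only [Set.mem_insert_iff, Set.mem_singleton_iff] at hx
    rcases hx with rfl | rfl | rfl | rfl
    · rw [← R0, G.adj_comm, RR 0 (by omega) (i + 1) (by omega) (by omega) (by omega)] at hax'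
      omega
    · rw [← Rc, RR (i + 1) (by omega) c (by omega) (by omega) (by omega)] at hax'
      right; exact ⟨by simp only [ec, Rc], by omega⟩
    · exact absurd hax'.symm (QR 1 (by omega) (by omega) (i + 1) (by omega) (by omega)).2
    · rw [hr, G.adj_comm, RR 1 (by omega) (i + 1) (by omega) (by omega) (by omega)] at hax'
      left; exact ⟨rfl, by omega⟩
  · have ec : c - 1 + 1 = c := by omega
    simp only [zero_add, ec, Rc]
    rw [← hr]
    exact k0

end Pool.Agent.L0h65.CW
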